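import Mathlib

/-!
If `Q` has an eigenvalue different from one and `P i X i = Q X i P i` for `k` pairs, where the `P i`
commute with each other, with `Q` and with the `X j` for `j ≠ i`, then the dimension is at least
`2 ^ k`.
-/

namespace Pool.Agent.FSX

open Module

universe u v

variable {L : Type v} [Field L]

theorem pow_add_apply {V : Type u} [AddCommGroup V] [Module L V] {A B : End L V}
    (h : Commute A B) {N : ℕ} {v : V} (hA : (A ^ N) v = 0) (hB : (B ^ N) v = 0) :
    ((A + B) ^ (2 * N)) v = 0 := by
  rw [h.add_pow, LinearMap.sum_apply]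
  refine Finset.sum_eq_zero fun i hi => ?_
  have hi' : i ≤ 2 * N := Nat.lt_succ_iff.1 (Finset.mem_range.1 hi)
  have h0 : (A ^ i * B ^ (2 * N - i)) v = 0 := by
    rcases le_total N i with hle | hle
    · have h1 : A ^ i * B ^ (2 * N - i) = B ^ (2 * N - i) * A ^ (i - N) * A ^ N := by
        rw [mul_assoc, ← pow_add, Nat.sub_add_cancel hle]
        exact (h.pow_pow _ _).eq
      rw [h1, Module.End.mul_apply, hA, map_zero]
    · have h1 : A ^ i * B ^ (2 * N - i) = A ^ i * B ^ (2 * N - i - N) * B ^ N := by
        rw [mul_assoc, ← pow_add, Nat.sub_add_cancel (by omega)]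
      rw [h1, Module.End.mul_apply, hB, map_zero]
  have h1 : A ^ i * B ^ (2 * N - i) * ((2 * N).choose i : End L V) =
      ((2 * N).choose i : End L V) * (A ^ i * B ^ (2 * N - i)) :=
    (Nat.cast_commute _ _).eq.symm
  rw [h1, Module.End.mul_apply, h0, map_zero]

section two

variable {V : Type u} [AddCommGroup V] [Module L V] [FiniteDimensional L V] [IsAlgClosed L]

theorem mem_maxGen_iff (f : End L V) (μ : L) (v : V) :
    v ∈ f.maxGenEigenspace μ ↔ ((f - μ • (1 : End L V)) ^ finrank L V) v = 0 := by
  constructor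
  · intro h
    rw [Module.End.maxGenEigenspace_eq_genEigenspace_finrank,
      Module.End.mem_genEigenspace_nat] at h
    exact h
  · intro h
    rw [Module.End.mem_maxGenEigenspace]
    exact ⟨_, h⟩

theorem exists_two (Q P X : End L V) (hQP : Commute Q P) (hX : P * X = Q * X * P)
    (hP : Function.Injective P) (hXi : Function.Injective X)
    (hQ : Q.maxGenEigenspace 1 ≠ ⊤) : ∃ b b', b ≠ b' ∧
      ¬ P.maxGenEigenspace b ≤ Q.maxGenEigenspace 1 ∧
      ¬ P.maxGenEigenspace b' ≤ Q.maxGenEigenspace 1 := by
  obtain ⟨b, hb⟩ : ∃ b, ¬ P.maxGenEigenspace b ≤ Q.maxGenEigenspace 1 := by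
    by_contra H
    push Not at H
    exact hQ (top_le_iff.1 (by rw [← Module.End.iSup_maxGenEigenspace_eq_top P]; exact iSup_le H))
  by_contra Hno
  have H : ∀ b', b ≠ b' → P.maxGenEigenspace b' ≤ Q.maxGenEigenspace 1 := by
    intro b' hbb'
    by_contra h
    exact Hno ⟨b, b', hbb', hb, h⟩
  set d := finrank L V with hd
  let R : End L V := Q - (1 : L) • (1 : End L V)
  have hR : R = Q - (1 : L) • (1 : End L V) := rfl
  have hRP : Commute R P := by
    rw [hR, one_smul]; exact hQP.sub_left (Commute.one_left P)
  have hRd : ∀ v, (R ^ d) v ∈ P.maxGenEigenspace b := by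
    have h1 : (⊤ : Submodule L V) ≤ (P.maxGenEigenspace b).comap (R ^ d) := by
      rw [← Module.End.iSup_maxGenEigenspace_eq_top P]
      refine iSup_le fun β => ?_
      intro v hv
      rw [Submodule.mem_comap]
      by_cases hβ : b = β
      · subst hβ
        exact Module.End.mapsTo_maxGenEigenspace_of_comm (hRP.symm.pow_right d) b hv
      · have h2 := (mem_maxGen_iff Q 1 v).1 (H β hβ hv)
        rw [← hR, ← hd] at h2
        rw [h2]; exact Submodule.zero_mem _
    exact fun v => h1 (Submodule.mem_top (x := v))
  have hb0 : b ≠ 0 := by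
    rintro rfl
    apply hb
    intro v hv
    rw [mem_maxGen_iff, zero_smul, sub_zero] at hv
    have h1 : Function.Injective (P ^ finrank L V) := by
      rw [Module.End.coe_pow]; exact hP.iterate _
    rw [h1 (hv.trans (map_zero _).symm)]
    exact Submodule.zero_mem _
  -- the operator P - b Q
  let Y : End L V := P - b • Q
  have hYP : Commute Y P := (Commute.refl P).sub_left (hQP.smul_left b)
  have hYQ : Commute Y Q := hQP.symm.sub_left ((Commute.refl Q).smul_left b)
  have hYR : Commute Y R := by
    rw [hR, one_smul]; exact hYQ.sub_right (Commute.one_right Y)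
  have hYX : ∀ N : ℕ, Y ^ N * X = Q ^ N * X * (P - b • (1 : End L V)) ^ N := by
    intro N
    induction N with
    | zero => simp
    | succ N ih =>
      have h1 : Y * X = Q * X * (P - b • (1 : End L V)) := by
        simp only [Y, sub_mul, mul_sub, smul_mul_assoc, mul_smul_comm, mul_one, hX]
      calc Y ^ (N + 1) * X = Y ^ N * (Y * X) := by rw [pow_succ, mul_assoc]
        _ = Y ^ N * Q * X * (P - b • (1 : End L V)) := by rw [h1]; simp only [mul_assoc]
        _ = Q * (Y ^ N * X) * (P - b • (1 : End L V)) := by
          rw [(hYQ.pow_left N).eq, mul_assoc Q]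
        _ = Q ^ (N + 1) * X * (P - b • (1 : End L V)) ^ (N + 1) := by
          rw [ih, pow_succ' Q, pow_succ (P - b • (1 : End L V))]; simp only [mul_assoc]
  let K : Submodule L V := LinearMap.ker (Y ^ d)
  have hK1 : finrank L (P.maxGenEigenspace b) ≤ finrank L K := by
    have hmaps : ∀ v ∈ P.maxGenEigenspace b, X v ∈ K := by
      intro v hv
      rw [mem_maxGen_iff, ← hd] at hv
      rw [LinearMap.mem_ker, ← Module.End.mul_apply, hYX d, Module.End.mul_apply, hv, map_zero]
    refine LinearMap.finrank_le_finrank_of_injective (f := X.restrict hmaps) ?_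
    intro x y hxy
    exact Subtype.ext (hXi (congrArg Subtype.val hxy))
  have hK2 : ∀ v ∈ K, v ∈ Q.maxGenEigenspace 1 := by
    intro v hv
    have h1 : ((P - b • (1 : End L V)) ^ d) ((R ^ d) v) = 0 := by
      have := (mem_maxGen_iff P b _).1 (hRd v)
      rwa [← hd] at this
    have h2 : ((-Y) ^ d) ((R ^ d) v) = 0 := by
      have h3 : (Y ^ d) ((R ^ d) v) = 0 := by
        rw [← Module.End.mul_apply, (hYR.pow_pow d d).eq, Module.End.mul_apply,
          LinearMap.mem_ker.1 hv, map_zero]
      rw [neg_pow, Module.End.mul_apply, h3, map_zero]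
    have hc : Commute (P - b • (1 : End L V)) (-Y) := by
      refine Commute.neg_right ?_
      exact (hYP.symm).sub_left ((Commute.one_left Y).smul_left b)
    have h4 := pow_add_apply hc h1 h2
    have h5 : P - b • (1 : End L V) + -Y = b • R := by
      simp only [Y, hR, one_smul, smul_sub]; abel
    rw [h5, smul_pow, LinearMap.smul_apply, ← Module.End.mul_apply, ← pow_add] at h4
    have h6 := (smul_eq_zero.1 h4).resolve_left (pow_ne_zero _ hb0)
    rw [Module.End.mem_maxGenEigenspace]
    exact ⟨_, h6⟩
  have hK3 : K ≤ P.maxGenEigenspace b ⊓ Q.maxGenEigenspace 1 := by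
    intro v hv
    refine ⟨?_, hK2 v hv⟩
    have h1 := (mem_maxGen_iff Q 1 v).1 (hK2 v hv)
    rw [← hR, ← hd] at h1
    have h2 : ((b • R) ^ d) v = 0 := by
      rw [smul_pow, LinearMap.smul_apply, h1, smul_zero]
    have h3 := pow_add_apply (hYR.smul_right b) (LinearMap.mem_ker.1 hv) h2
    have h4 : Y + b • R = P - b • (1 : End L V) := by
      simp only [Y, hR, one_smul, smul_sub]; abel
    rw [h4] at h3
    change v ∈ P.maxGenEigenspace b
    rw [Module.End.mem_maxGenEigenspace]
    exact ⟨_, h3⟩
  have h1 := Submodule.finrank_mono hK3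
  have h2 := Submodule.finrank_mono
    (inf_le_left : P.maxGenEigenspace b ⊓ Q.maxGenEigenspace 1 ≤ P.maxGenEigenspace b)
  have h3 := Submodule.eq_of_le_of_finrank_eq
    (inf_le_left : P.maxGenEigenspace b ⊓ Q.maxGenEigenspace 1 ≤ P.maxGenEigenspace b) (by omega)
  exact hb (inf_eq_left.1 h3)

end two

theorem gen_bound [IsAlgClosed L] (k : ℕ) : ∀ (V : Type u) [AddCommGroup V] [Module L V]
    [FiniteDimensional L V] (Q : End L V) (P X : Fin k → End L V),
    (∀ i, Commute Q (P i)) → (∀ i j, Commute (P i) (P j)) →
    (∀ i, P i * X i = Q * X i * P i) → (∀ i j, i ≠ j → Commute (X i) (P j)) →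
    (∀ i, Function.Injective (P i)) → (∀ i, Function.Injective (X i)) →
    Q.maxGenEigenspace 1 ≠ ⊤ → 2 ^ k ≤ finrank L V := by
  induction k with
  | zero =>
    intro V _ _ _ Q P X _ _ _ _ _ _ hQ
    rw [pow_zero, Nat.one_le_iff_ne_zero]
    intro h0
    have hs : Subsingleton V := Module.finrank_zero_iff.1 h0
    exact hQ (Subsingleton.elim _ _)
  | succ k ih =>
    intro V _ _ _ Q P X hQP hPP hPX hXP hPi hXi hQ
    obtain ⟨b, b', hbb', hb, hb'⟩ := exists_two Q (P (Fin.last k)) (X (Fin.last k))
      (hQP _) (hPX _) (hPi _) (hXi _) hQ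
    have key : ∀ β, ¬ (P (Fin.last k)).maxGenEigenspace β ≤ Q.maxGenEigenspace 1 →
        2 ^ k ≤ finrank L ((P (Fin.last k)).maxGenEigenspace β) := by
      intro β hβ
      have hne : ∀ i : Fin k, i.castSucc ≠ Fin.last k := fun i => (Fin.castSucc_lt_last i).ne
      have m1 : ∀ v ∈ (P (Fin.last k)).maxGenEigenspace β,
          Q v ∈ (P (Fin.last k)).maxGenEigenspace β := fun v hv =>
        Module.End.mapsTo_maxGenEigenspace_of_comm (hQP _).symm β hv
      have m2 : ∀ i, ∀ v ∈ (P (Fin.last k)).maxGenEigenspace β,
          P i v ∈ (P (Fin.last k)).maxGenEigenspace β := fun i v hv =>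
        Module.End.mapsTo_maxGenEigenspace_of_comm (hPP _ _) β hv
      have m3 : ∀ i : Fin k, ∀ v ∈ (P (Fin.last k)).maxGenEigenspace β,
          X i.castSucc v ∈ (P (Fin.last k)).maxGenEigenspace β := fun i v hv =>
        Module.End.mapsTo_maxGenEigenspace_of_comm (hXP _ _ (hne i)).symm β hv
      refine ih ((P (Fin.last k)).maxGenEigenspace β) (Q.restrict m1)
        (fun i => (P i.castSucc).restrict (m2 i.castSucc))
        (fun i => (X i.castSucc).restrict (m3 i)) ?_ ?_ ?_ ?_ ?_ ?_ ?_
      · intro i
        ext v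
        exact congrArg (fun f : End L V => f v) (hQP i.castSucc).eq
      · intro i j
        ext v
        exact congrArg (fun f : End L V => f v) (hPP i.castSucc j.castSucc).eq
      · intro i
        ext v
        exact congrArg (fun f : End L V => f v) (hPX i.castSucc)
      · intro i j hij
        ext v
        exact congrArg (fun f : End L V => f v)
          (hXP i.castSucc j.castSucc fun h => hij (Fin.castSucc_injective k h)).eq
      · intro i x y hxy
        exact Subtype.ext (hPi _ (congrArg Subtype.val hxy))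
      · intro i x y hxy
        exact Subtype.ext (hXi _ (congrArg Subtype.val hxy))
      · intro htop
        apply hβ
        intro v hv
        have h1 : (⟨v, hv⟩ : (P (Fin.last k)).maxGenEigenspace β) ∈
            Module.End.maxGenEigenspace (Q.restrict m1) 1 := by rw [htop]; trivial
        rw [Module.End.mem_maxGenEigenspace] at h1 ⊢
        obtain ⟨N, hN⟩ := h1
        refine ⟨N, ?_⟩
        have h2 : ∀ (M : ℕ) (x : (P (Fin.last k)).maxGenEigenspace β),
            (((((Q.restrict m1 : End L ((P (Fin.last k)).maxGenEigenspace β)) -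
              (1 : L) • (1 : End L ((P (Fin.last k)).maxGenEigenspace β))) ^ M) x :
              (P (Fin.last k)).maxGenEigenspace β) : V) =
            ((Q - (1 : L) • (1 : End L V)) ^ M) (x : V) := by
          intro M
          induction M with
          | zero => intro x; rfl
          | succ M ihM =>
            intro x
            rw [pow_succ, pow_succ, Module.End.mul_apply, Module.End.mul_apply, ihM]
            rfl
        rw [← h2 N ⟨v, hv⟩, hN]
        rfl
    have h1 := key b hb
    have h2 := key b' hb'
    have hdis : Disjoint ((P (Fin.last k)).maxGenEigenspace b)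
        ((P (Fin.last k)).maxGenEigenspace b') :=
      (Module.End.independent_maxGenEigenspace (P (Fin.last k))).pairwiseDisjoint hbb'
    have h3 := Submodule.finrank_sup_add_finrank_inf_eq ((P (Fin.last k)).maxGenEigenspace b)
      ((P (Fin.last k)).maxGenEigenspace b')
    rw [hdis.eq_bot, finrank_bot, add_zero] at h3
    have h4 := Submodule.finrank_le ((P (Fin.last k)).maxGenEigenspace b ⊔
      (P (Fin.last k)).maxGenEigenspace b')
    rw [pow_succ]
    omega

end Pool.Agent.FSX
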