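import Pool.Agent.FSX.Nil
import Pool.Agent.FSX.Gen

/-!
Subgroups generated by lifts of some basis elements act unipotently in small degrees.
-/

namespace Pool.Agent.FSX

open Pool.Agent.FSC

section word

variable {n : ℕ} {G : Type*} [Group G] (N : Niel n G)

/-- For `u` in the subgroup generated by the `X i` with `i ∈ I` and `k ∉ I` there is an element
acting as `x_k ↦ u x_k` in the subgroup generated by the `l k i` with `i ∈ I`. -/
theorem exists_word (I : Set (Fin n)) {u : G} (hu : u ∈ Subgroup.closure (N.X '' I)) {k : Fin n}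
    (hk : k ∉ I) : ∃ P ∈ Subgroup.closure ((fun i => N.l k i) '' I),
      MulAut.conj P (N.X k) = u * N.X k ∧ ∀ j, j ≠ k → MulAut.conj P (N.X j) = N.X j := by
  have fixU : ∀ P : G, (∀ j, j ≠ k → MulAut.conj P (N.X j) = N.X j) →
      ∀ v ∈ Subgroup.closure (N.X '' I), MulAut.conj P v = v := by
    intro P hP v hv
    induction hv using Subgroup.closure_induction with
    | mem x hx =>
      obtain ⟨i, hi, rfl⟩ := hx
      exact hP i fun h => hk (h ▸ hi)
    | one => exact map_one _
    | mul x y _ _ hx hy => rw [map_mul, hx, hy]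
    | inv x _ hx => rw [map_inv, hx]
  induction hu using Subgroup.closure_induction with
  | mem x hx =>
    obtain ⟨i, hi, rfl⟩ := hx
    have hki : k ≠ i := fun h => hk (h ▸ hi)
    exact ⟨N.l k i, Subgroup.subset_closure ⟨i, hi, rfl⟩, N.l_self k i hki,
      fun j hj => N.l_other k i j hki hj⟩
  | one => exact ⟨1, Subgroup.one_mem _, by simp, by simp⟩
  | mul x y hx hy ihx ihy =>
    obtain ⟨P, hP, hP1, hP2⟩ := ihx
    obtain ⟨Q, hQ, hQ1, hQ2⟩ := ihy
    refine ⟨Q * P, Subgroup.mul_mem _ hQ hP, ?_, ?_⟩
    · rw [map_mul, MulAut.mul_apply, hP1, map_mul, hQ1, fixU Q hQ2 x hx, mul_assoc]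
    · intro j hj
      rw [map_mul, MulAut.mul_apply, hP2 j hj, hQ2 j hj]
  | inv x hx ihx =>
    obtain ⟨P, hP, hP1, hP2⟩ := ihx
    refine ⟨P⁻¹, Subgroup.inv_mem _ hP, ?_, ?_⟩
    · rw [map_inv, MulAut.inv_apply, MulEquiv.symm_apply_eq, map_mul, map_inv, hP1,
        fixU P hP2 x hx, inv_mul_cancel_left]
    · intro j hj
      rw [map_inv, MulAut.inv_apply, MulEquiv.symm_apply_eq, hP2 j hj]

theorem commute_closure {S T : Set G} (h : ∀ s ∈ S, ∀ t ∈ T, Commute s t) :
    ∀ s ∈ Subgroup.closure S, ∀ t ∈ Subgroup.closure T, Commute s t := by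
  intro s hs t ht
  induction hs using Subgroup.closure_induction with
  | mem x hx =>
    induction ht using Subgroup.closure_induction with
    | mem y hy => exact h x hx y hy
    | one => exact Commute.one_right x
    | mul y z _ _ hy hz => exact hy.mul_right hz
    | inv y _ hy => exact hy.inv_right
  | one => exact Commute.one_left t
  | mul x y _ _ hx hy => exact hx.mul_left hy
  | inv x _ hx => exact hx.inv_left

end word

section unip

variable {n m : ℕ} {L : Type*} [Field L] [IsAlgClosed L] (N : Niel n (GL (Fin m) L))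

/-- the linear map of an invertible matrix -/
noncomputable def tl (g : GL (Fin m) L) : Module.End L (Fin m → L) :=
  Matrix.toLin' (g : Matrix (Fin m) (Fin m) L)

omit [IsAlgClosed L] in
theorem tl_mul (g h : GL (Fin m) L) : tl (g * h) = tl g * tl h := by
  rw [tl, tl, tl, Units.val_mul, Matrix.toLin'_mul]; rfl

omit [IsAlgClosed L] in
theorem tl_one : tl (1 : GL (Fin m) L) = 1 := by
  rw [tl, Units.val_one, Matrix.toLin'_one]; rfl

omit [IsAlgClosed L] in
theorem tl_injective (g : GL (Fin m) L) : Function.Injective (tl g) := by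
  have h1 : tl g⁻¹ * tl g = 1 := by rw [← tl_mul, inv_mul_cancel, tl_one]
  intro x y hxy
  have h2 := congrArg (tl g⁻¹) hxy
  rw [← Module.End.mul_apply, ← Module.End.mul_apply, h1] at h2
  exact h2

/-- In degrees less than `2 ^ (n - |I|)` the subgroup generated by the `X i` with `i ∈ I` is
unipotent. -/
theorem unip_of_lt (I : Finset (Fin n))
    (hcomm : ∀ i ∈ I, ∀ j ∈ I, ∀ k k', k ∉ I → k' ∉ I → k ≠ k' →
      Commute (N.l k i) (N.l k' j))
    (hlt : m < 2 ^ (n - I.card)) {u : GL (Fin m) L}
    (hu : u ∈ Subgroup.closure (N.X '' (I : Set (Fin n)))) :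
    ((u : Matrix (Fin m) (Fin m) L) - 1) ^ m = 0 := by
  classical
  have hcard : Fintype.card {k : Fin n // k ∉ I} = n - I.card := by
    rw [Fintype.card_subtype_compl, Fintype.card_fin, Fintype.card_coe]
  let e : Fin (n - I.card) ≃ {k : Fin n // k ∉ I} := (Fintype.equivFinOfCardEq hcard).symm
  choose P hP hP1 hP2 using fun k : {k : Fin n // k ∉ I} =>
    exists_word N (I : Set (Fin n)) hu (k := k.1) (by simpa using k.2)
  have htop : (tl u).maxGenEigenspace 1 = ⊤ := by
    by_contra hne
    have h1 := gen_bound (L := L) (n - I.card) (Fin m → L) (tl u) (fun t => tl (P (e t)))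
      (fun t => tl (N.X (e t).1)) ?_ ?_ ?_ ?_ (fun t => tl_injective _) (fun t => tl_injective _)
      hne
    · rw [Module.finrank_fin_fun] at h1
      omega
    · intro t
      have h2 : ∀ v ∈ Subgroup.closure (N.X '' (I : Set (Fin n))),
          Commute v (P (e t)) := by
        intro v hv
        induction hv using Subgroup.closure_induction with
        | mem x hx =>
          obtain ⟨i, hi, rfl⟩ := hx
          have h3 := hP2 (e t) i fun h => (e t).2 (h ▸ hi)
          rw [MulAut.conj_apply, mul_inv_eq_iff_eq_mul] at h3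
          exact h3.symm
        | one => exact Commute.one_left _
        | mul x y _ _ hx hy => exact hx.mul_left hy
        | inv x _ hx => exact hx.inv_left
      change tl u * tl (P (e t)) = tl (P (e t)) * tl u
      rw [← tl_mul, ← tl_mul, (h2 u hu).eq]
    · intro s t
      change tl (P (e s)) * tl (P (e t)) = tl (P (e t)) * tl (P (e s))
      rw [← tl_mul, ← tl_mul]
      by_cases hst : s = t
      · rw [hst]
      · have hne : (e s).1 ≠ (e t).1 := fun h => hst (e.injective (Subtype.ext h))
        have h2 := commute_closure (S := (fun i => N.l (e s).1 i) '' (I : Set (Fin n)))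
          (T := (fun i => N.l (e t).1 i) '' (I : Set (Fin n))) (by
            rintro _ ⟨i, hi, rfl⟩ _ ⟨j, hj, rfl⟩
            exact hcomm i hi j hj _ _ (e s).2 (e t).2 hne) _ (hP (e s)) _ (hP (e t))
        rw [h2.eq]
    · intro t
      have h2 := hP1 (e t)
      rw [MulAut.conj_apply, mul_inv_eq_iff_eq_mul] at h2
      rw [← tl_mul, ← tl_mul, ← tl_mul, h2]
    · intro s t hst
      have hne : (e s).1 ≠ (e t).1 := fun h => hst (e.injective (Subtype.ext h))
      have h2 := hP2 (e t) (e s).1 hne
      rw [MulAut.conj_apply, mul_inv_eq_iff_eq_mul] at h2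
      change tl (N.X (e s).1) * tl (P (e t)) = tl (P (e t)) * tl (N.X (e s).1)
      rw [← tl_mul, ← tl_mul, h2]
  have h1 : (tl u - 1) ^ m = 0 := by
    refine LinearMap.ext fun v => ?_
    have h2 := (mem_maxGen_iff (tl u) 1 v).1 (by rw [htop]; trivial)
    rw [Module.finrank_fin_fun, one_smul] at h2
    rw [h2]; rfl
  have h3 : Matrix.toLin' (((u : Matrix (Fin m) (Fin m) L) - 1) ^ m) = (tl u - 1) ^ m := by
    rw [Matrix.toLin'_pow, map_sub, Matrix.toLin'_one]; rfl
  rw [h1] at h3
  exact (Matrix.toLin'.map_eq_zero_iff).1 h3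

end unip

end Pool.Agent.FSX
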