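import Pool.Agent.FSX.Count
import Pool.Agent.FSX.Word

/-!
The degree bounds for projectively faithful representations of Nielsen data.
-/

namespace Pool.Agent.FSX

open Pool.Agent.FSC

section unipotent

theorem eq_one_of_pow {L E : Type*} [Field L] [Ring E] [Algebra L E] {u : E}
    (hu : IsNilpotent (u - 1)) {b : ℕ} (hb : (b : L) ≠ 0) (h : u ^ b = 1) : u = 1 := by
  by_contra hne
  have hx : u - 1 ≠ 0 := sub_ne_zero.2 hne
  classical
  have hex : ∃ k, (u - 1) ^ k = 0 := hu
  have h0 := Nat.find_spec hex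
  set K := Nat.find hex with hK
  have hK0 : K ≠ 0 := by
    intro h1
    rw [h1, pow_zero] at h0
    exact hx (by rw [← mul_one (u - 1), h0, mul_zero])
  have hK1 : K ≠ 1 := by
    intro h1
    rw [h1, pow_one] at h0
    exact hx h0
  have h1 : (∑ i ∈ Finset.range b, u ^ i) * (u - 1) = 0 := by
    rw [geom_sum_mul, h, sub_self]
  have h2 : (∑ i ∈ Finset.range b, u ^ i) * (u - 1) ^ (K - 1) = 0 := by
    obtain ⟨t, ht⟩ : ∃ t, K - 1 = t + 1 := ⟨K - 2, by omega⟩
    rw [ht, pow_succ', ← mul_assoc, h1, zero_mul]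
  have h3 : ∀ i, u ^ i * (u - 1) ^ (K - 1) = (u - 1) ^ (K - 1) := by
    intro i
    induction i with
    | zero => rw [pow_zero, one_mul]
    | succ i ih =>
      have h4 : u * (u - 1) ^ (K - 1) = (u - 1) ^ K + (u - 1) ^ (K - 1) := by
        have h5 : (u - 1) ^ K = (u - 1) * (u - 1) ^ (K - 1) := by
          rw [← pow_succ', Nat.sub_add_cancel (by omega)]
        rw [h5]; noncomm_ring
      rw [pow_succ, mul_assoc, h4, h0, zero_add, ih]
  rw [Finset.sum_mul, Finset.sum_congr rfl (fun i _ => h3 i), Finset.sum_const,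
    Finset.card_range, ← Nat.cast_smul_eq_nsmul L] at h2
  have h4 := (smul_eq_zero.1 h2).resolve_left hb
  exact Nat.find_min hex (by omega) h4

theorem isNilpotent_pow_sub_one {E : Type*} [Ring E] {u : E} (hu : IsNilpotent (u - 1)) (k : ℕ) :
    IsNilpotent (u ^ k - 1) := by
  have h1 : Commute (∑ i ∈ Finset.range k, u ^ i) (u - 1) := by
    refine Commute.sum_left _ _ _ fun i _ => ?_
    exact ((Commute.refl u).pow_left i).sub_right (Commute.one_right _)
  rw [← geom_sum_mul]
  exact h1.isNilpotent_mul_left hu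

end unipotent

section

variable {A : Type*} [Group A] {L : Type*} [Field L] [IsAlgClosed L] {n m : ℕ} (D : Dat n A)
  (R : PRep A L m)

omit [IsAlgClosed L] in
theorem lift_comm (hn : 4 ≤ n) (I : Finset (Fin n)) (hI : 5 ≤ n ∨ I.card ≤ 1) :
    ∀ i ∈ I, ∀ j ∈ I, ∀ k k', k ∉ I → k' ∉ I → k ≠ k' →
      Commute (R.P (D.l k i)) (R.P (D.l k' j)) := by
  intro i hi j hj k k' hk hk' hkk'
  have h1 : k ≠ i := fun h => hk (h ▸ hi)
  have h2 : k ≠ j := fun h => hk (h ▸ hj)
  have h3 : k' ≠ i := fun h => hk' (h ▸ hi)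
  have h4 : k' ≠ j := fun h => hk' (h ▸ hj)
  rcases hI with h5 | h5
  · obtain ⟨t, t1, t2, t3, t4⟩ := Dat.exists_out4 (n := n) h5 k k' i j
    exact Units.ext (D.ex_ll R h1 h2 h3 h4 hkk' t1 t3 t2 t4)
  · have hij : i = j := Finset.card_le_one.1 h5 i hi j hj
    subst hij
    obtain ⟨t, t1, t2, t3⟩ := Dat.exists_out3 (n := n) hn k k' i
    exact Units.ext (D.ex_ll R h1 h2 h3 h4 hkk' t1 t3 t2 t3)

include D R in
/-- small degrees: unipotence of the lifts -/
theorem unip (hn : 4 ≤ n) (N : Niel n (GL (Fin m) L)) (hl : N.l = fun i j => R.P (D.l i j))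
    (I : Finset (Fin n)) (hlt : m < 2 ^ (n - I.card)) {u : GL (Fin m) L}
    (hu : u ∈ Subgroup.closure (N.X '' (I : Set (Fin n)))) :
    ((u : Matrix (Fin m) (Fin m) L) - 1) ^ m = 0 := by
  by_cases hI : 5 ≤ n ∨ I.card ≤ 1
  · refine unip_of_lt N I ?_ hlt hu
    rw [hl]
    exact lift_comm D R hn I hI
  · exfalso
    push Not at hI
    obtain ⟨h1, h2⟩ := hI
    have hn4 : n = 4 := by omega
    subst hn4
    have h3 := D.bound R (by norm_num)
    have h4 : 2 ^ (4 - I.card) ≤ 2 ^ 2 := Nat.pow_le_pow_right (by norm_num) (by omega)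
    omega

include D R in
theorem sign_main (hn : 3 ≤ n) (h2 : (2 : L) ≠ 0) : 2 ^ (n - 1) ≤ m ^ 2 := by
  have hb := D.bound R hn
  by_cases hn3 : n = 3
  · subst hn3
    have h4 : 4 ≤ m := hb
    calc 2 ^ (3 - 1) ≤ 4 ^ 2 := by norm_num
      _ ≤ m ^ 2 := Nat.pow_le_pow_left h4 2
  have hn4 : 4 ≤ n := by omega
  by_contra hlt
  push Not at hlt
  have hm : m < 2 ^ (n - 1) := by nlinarith
  obtain ⟨N, hl, hr, hX⟩ := exists_lift R D hn4
  have hu : ∀ i, IsUnit ((N.X i : Matrix (Fin m) (Fin m) L) + 1) := by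
    intro i
    have h3 := unip D R hn4 N hl {i} (by rw [Finset.card_singleton]; exact hm)
      (u := N.X i) (Subgroup.subset_closure ⟨i, by simp, rfl⟩)
    have h4 : IsNilpotent ((N.X i : Matrix (Fin m) (Fin m) L) - 1) := ⟨m, h3⟩
    have h5 : (N.X i : Matrix (Fin m) (Fin m) L) + 1 =
        (2 : L) • (1 : Matrix (Fin m) (Fin m) L) + ((N.X i : Matrix (Fin m) (Fin m) L) - 1) := by
      rw [two_smul]; abel
    rw [h5]
    refine h4.isUnit_add_left_of_commute ?_ ?_
    · exact (isUnit_one (M := Matrix (Fin m) (Fin m) L)).smul (Units.mk0 (2 : L) h2)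
    · exact (Commute.one_right _).smul_right _
  obtain ⟨k, rfl⟩ : ∃ k, n = k + 1 := ⟨n - 1, by omega⟩
  have h6 := N.sign_bound L h2 hu (J_ne_bot R D N hX (by omega) k)
  rw [Module.finrank_matrix, Fintype.card_fin, Module.finrank_self, mul_one] at h6
  rw [Nat.add_sub_cancel] at hlt
  nlinarith

include D R in
theorem tri_main (hn : 3 ≤ n) : 3 ^ (n / 2) ≤ m ^ 2 := by
  have hb := D.bound R hn
  by_cases hn3 : n = 3
  · subst hn3
    have h4 : 4 ≤ m := hb
    calc 3 ^ (3 / 2) ≤ 4 ^ 2 := by norm_num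
      _ ≤ m ^ 2 := Nat.pow_le_pow_left h4 2
  have hn4 : 4 ≤ n := by omega
  by_cases h3 : (3 : L) = 0
  · -- characteristic three
    have h2 : (2 : L) ≠ 0 := by
      intro h2
      have : (1 : L) = 0 := by linear_combination h3 - h2
      exact one_ne_zero this
    by_cases hn5 : n = 4
    · subst hn5
      have h4 : 6 ≤ m := hb
      calc 3 ^ (4 / 2) ≤ 6 ^ 2 := by norm_num
        _ ≤ m ^ 2 := Nat.pow_le_pow_left h4 2
    · have h4 := sign_main D R hn h2
      refine le_trans ?_ h4
      obtain ⟨k, hk | hk⟩ := Nat.even_or_odd' n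
      · subst hk
        have e1 : 2 * k / 2 = k := by omega
        rw [e1]
        have : ∀ j, 3 ≤ j → 3 ^ j ≤ 2 ^ (2 * j - 1) := by
          intro j hj
          induction j, hj using Nat.le_induction with
          | base => norm_num
          | succ j hj ih =>
            have e2 : 2 * (j + 1) - 1 = (2 * j - 1) + 2 := by omega
            rw [e2, pow_succ, pow_add]
            omega
        exact this k (by omega)
      · subst hk
        have e1 : (2 * k + 1) / 2 = k := by omega
        rw [e1, Nat.add_sub_cancel, pow_mul]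
        exact Nat.pow_le_pow_left (by norm_num) k
  · obtain ⟨N, hl, hr, hX⟩ := exists_lift R D hn4
    obtain ⟨w, hw⟩ := IsAlgClosed.exists_root (Polynomial.X ^ 2 + Polynomial.X + 1 :
      Polynomial L) (by
        have : (Polynomial.X ^ 2 + Polynomial.X + 1 : Polynomial L).degree = 2 := by
          compute_degree!
        rw [this]; norm_num)
    simp only [Polynomial.IsRoot.def, Polynomial.eval_add, Polynomial.eval_pow,
      Polynomial.eval_X, Polynomial.eval_one] at hw
    have hw3 : w ^ 3 = 1 := by linear_combination (w - 1) * hw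
    have hw1 : w ≠ 1 := by
      rintro rfl
      apply h3
      linear_combination hw
    have h6 := N.tri_bound L (k := n / 2) (fun t => ⟨2 * t, by omega⟩)
      (fun t => ⟨2 * t + 1, by omega⟩)
      (fun s t h => by
        have := congrArg Fin.val h
        simp only at this
        omega)
      (fun s t h => by
        have := congrArg Fin.val h
        simp only at this
        exact Fin.ext (by omega))
      (fun s t h => by
        have := congrArg Fin.val h
        simp only at this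
        exact Fin.ext (by omega)) hw3 hw1 (J_ne_bot R D N hX (by omega) _)
    rw [Module.finrank_matrix, Fintype.card_fin, Module.finrank_self, mul_one] at h6
    rwa [pow_two]

include R in
/-- In degrees less than `2 ^ (n - |I|)` elements of finite order in the subgroup generated by the
`s i` with `i ∈ I` have order a power of the characteristic exponent. -/
theorem exists_pow_eq_one (hn : 3 ≤ n) (q : ℕ) [ExpChar L q] (I : Finset (Fin n))
    (hI : I.Nonempty) (hlt : m < 2 ^ (n - I.card)) {s : A}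
    (hs : s ∈ Subgroup.closure (D.s '' (I : Set (Fin n)))) (hfin : IsOfFinOrder s) :
    ∃ a : ℕ, s ^ q ^ a = 1 := by
  have hb := D.bound R hn
  have hcard : 0 < I.card := Finset.card_pos.2 hI
  by_cases hn3 : n = 3
  · exfalso
    subst hn3
    have h4 : 2 ^ (3 - I.card) ≤ 2 ^ 2 := Nat.pow_le_pow_right (by norm_num) (by omega)
    omega
  have hn4 : 4 ≤ n := by omega
  obtain ⟨N, hl, hr, hX⟩ := exists_lift R D hn4
  -- a lift of `s`
  obtain ⟨u, hu, hus⟩ : ∃ u ∈ Subgroup.closure (N.X '' (I : Set (Fin n))),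
      (QuotientGroup.mk u : GL (Fin m) L ⧸ Subgroup.center _) = piHom R s := by
    clear hfin
    induction hs using Subgroup.closure_induction with
    | mem x hx =>
      obtain ⟨i, hi, rfl⟩ := hx
      refine ⟨N.X i, Subgroup.subset_closure ⟨i, hi, rfl⟩, ?_⟩
      obtain ⟨c, hc, h1⟩ := hX i
      rw [h1, QuotientGroup.mk_mul, (QuotientGroup.eq_one_iff c).2 hc, one_mul, piHom_apply]
    | one => exact ⟨1, Subgroup.one_mem _, by rw [map_one]; rfl⟩
    | mul x y _ _ hx hy =>
      obtain ⟨u, hu, hu'⟩ := hx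
      obtain ⟨v, hv, hv'⟩ := hy
      exact ⟨u * v, Subgroup.mul_mem _ hu hv, by rw [QuotientGroup.mk_mul, hu', hv', map_mul]⟩
    | inv x _ hx =>
      obtain ⟨u, hu, hu'⟩ := hx
      exact ⟨u⁻¹, Subgroup.inv_mem _ hu, by rw [QuotientGroup.mk_inv, hu', map_inv]⟩
  have hnil : IsNilpotent ((u : Matrix (Fin m) (Fin m) L) - 1) :=
    ⟨m, unip D R hn4 N hl I hlt hu⟩
  have : Nonempty (Fin m) := ⟨⟨0, by omega⟩⟩
  set o := orderOf s with ho
  have ho0 : o ≠ 0 := (orderOf_pos_iff.2 hfin).ne'
  -- `u ^ o = 1`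
  have huo : u ^ o = 1 := by
    have h1 : (QuotientGroup.mk (u ^ o) : GL (Fin m) L ⧸ Subgroup.center _) = 1 := by
      rw [QuotientGroup.mk_pow, hus, ← map_pow, ho, pow_orderOf_eq_one, map_one]
    rw [QuotientGroup.eq_one_iff,
      Matrix.GeneralLinearGroup.mem_center_iff_val_mem_range_scalar] at h1
    obtain ⟨c, hc⟩ := h1
    have h2 := isNilpotent_pow_sub_one hnil o
    rw [← Units.val_pow_eq_pow_val, ← hc] at h2
    obtain ⟨k, hk⟩ := h2
    have h3 : (Matrix.scalar (Fin m)) c - 1 = (Matrix.scalar (Fin m)) (c - 1) := by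
      rw [map_sub, map_one]
    rw [h3, ← map_pow] at hk
    have h4 : (c - 1) ^ k = 0 := by
      have := congrFun (congrFun hk ⟨0, by omega⟩) ⟨0, by omega⟩
      simpa using this
    have h5 : c = 1 := sub_eq_zero.1 (eq_zero_of_pow_eq_zero h4)
    apply Units.ext
    rw [← hc, h5, map_one, Units.val_one]
  -- split off the part prime to the characteristic
  obtain ⟨a, b, hab, hbL⟩ : ∃ a b : ℕ, o = q ^ a * b ∧ (b : L) ≠ 0 := by
    rcases ‹ExpChar L q› with _ | hp
    · exact ⟨0, o, by simp, Nat.cast_ne_zero.2 ho0⟩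
    · obtain ⟨a, b, hb, hab⟩ := Nat.exists_eq_pow_mul_and_not_dvd ho0 q hp.ne_one
      refine ⟨a, b, hab, ?_⟩
      rwa [Ne, CharP.cast_eq_zero_iff L q]
  refine ⟨a, ?_⟩
  have h6 := isNilpotent_pow_sub_one hnil (q ^ a)
  have h7 : ((u : Matrix (Fin m) (Fin m) L) ^ q ^ a) ^ b = 1 := by
    rw [← pow_mul, ← hab, ← Units.val_pow_eq_pow_val, huo, Units.val_one]
  have h8 := eq_one_of_pow h6 hbL h7
  apply piHom_injective R
  rw [map_pow, map_one, ← hus, ← QuotientGroup.mk_pow]
  have h9 : u ^ q ^ a = 1 := Units.ext (by rw [Units.val_pow_eq_pow_val, h8, Units.val_one])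
  rw [h9]; rfl

end

end Pool.Agent.FSX
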