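import Pool.Agent.FSX.Step

/-!
Products of factors are non-zero and linearly independent, which bounds the dimension from below.
-/

namespace Pool.Agent.FSX

/-- Simultaneous eigenvectors with pairwise distinct systems of eigenvalues are independent. -/
theorem card_le_of_eigen {L E ι κ : Type*} [Field L] [AddCommGroup E] [Module L E]
    [FiniteDimensional L E] [Fintype ι] (T : κ → E →ₗ[L] E) (y : ι → E) (hy : ∀ e, y e ≠ 0)
    (χ : ι → κ → L) (hT : ∀ e k, T k (y e) = χ e k • y e) (hχ : Function.Injective χ) :
    Fintype.card ι ≤ Module.finrank L E := by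
  classical
  have key : ∀ s : Finset ι, ∀ c : ι → L, ∑ e ∈ s, c e • y e = 0 → ∀ e ∈ s, c e = 0 := by
    intro s
    induction s using Finset.induction_on with
    | empty => intro c _ e he; exact absurd he (Finset.notMem_empty e)
    | insert a s ha ih =>
      intro c hc
      have h1 : ∀ e ∈ s, c e = 0 := by
        intro e he
        have hne : e ≠ a := fun h => ha (h ▸ he)
        obtain ⟨k, hk⟩ : ∃ k, χ e k ≠ χ a k := by
          by_contra H
          push Not at H
          exact hne (hχ (funext H))
        have h2 := congrArg (T k) hc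
        rw [map_zero, map_sum] at h2
        have h3 : ∑ e ∈ insert a s, T k (c e • y e) = ∑ e ∈ insert a s, (χ e k * c e) • y e := by
          refine Finset.sum_congr rfl fun e _ => ?_
          rw [map_smul, hT, smul_smul, mul_comm]
        rw [h3] at h2
        have h4 := congrArg (fun z => χ a k • z) hc
        simp only [smul_zero, Finset.smul_sum, smul_smul] at h4
        rw [Finset.sum_insert ha] at h2 h4
        have h5 : ∑ e ∈ s, ((χ e k - χ a k) * c e) • y e = 0 := by
          have h6 : ∑ e ∈ s, ((χ e k - χ a k) * c e) • y e =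
              ((χ a k * c a) • y a + ∑ e ∈ s, (χ e k * c e) • y e) -
                ((χ a k * c a) • y a + ∑ e ∈ s, (χ a k * c e) • y e) := by
            rw [add_sub_add_left_eq_sub, ← Finset.sum_sub_distrib]
            refine Finset.sum_congr rfl fun e _ => ?_
            rw [sub_mul, sub_smul]
          rw [h6, h2, h4, sub_zero]
        have h7 := ih _ h5 e he
        exact (mul_eq_zero.1 h7).resolve_left (sub_ne_zero.2 hk)
      have h2 : c a = 0 := by
        rw [Finset.sum_insert ha, Finset.sum_eq_zero (fun e he => by rw [h1 e he, zero_smul]),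
          add_zero] at hc
        exact (smul_eq_zero.1 hc).resolve_right (hy a)
      intro e he
      rcases Finset.mem_insert.1 he with rfl | he
      · exact h2
      · exact h1 e he
  have hli : LinearIndependent L y := by
    rw [Fintype.linearIndependent_iff]
    exact fun c hc e => key Finset.univ c hc e (Finset.mem_univ e)
  exact hli.fintype_card_le_finrank

theorem map_list_prod_smul {L E ι : Type*} [Field L] [Ring E] [Algebra L E] (φ : E →* E)
    (hφ : ∀ (c : L) (x : E), φ (c • x) = c • φ x) (g : ι → E) (a : ι → L)
    (h : ∀ s, φ (g s) = a s • g s) (l : List ι) :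
    φ (l.map g).prod = (l.map a).prod • (l.map g).prod := by
  induction l with
  | nil => simp
  | cons s l ih =>
    rw [List.map_cons, List.prod_cons, List.map_cons, List.prod_cons, map_mul, h, ih,
      smul_mul_smul_comm]

namespace Niel

variable (L : Type*) {E : Type*} [Field L] [Ring E] [Algebra L E] [FiniteDimensional L E]
  {n : ℕ} (N : Niel n Eˣ)

/-- A factor which only involves the basis elements in `S` and allows to pass from the power `j`
of the augmentation ideal to the power `j + 1`. -/
structure Fac (S : Finset (Fin n)) (f : E) : Prop where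
  cm : ∀ i k, i ∉ S → i ≠ k → (N.l i k : E) * f = f * N.l i k ∧ (N.r i k : E) * f = f * N.r i k
  step : ∀ (j : ℕ) (P : E), (∀ i k, i ∈ S → i ≠ k →
      (N.l i k : E) * P = P * N.l i k ∧ (N.r i k : E) * P = P * N.r i k) →
    (∀ y ∈ N.J L j, P * (f * y) = 0) → ∀ y ∈ N.J L (j + 1), P * y = 0

theorem Fac_one (S : Finset (Fin n)) : N.Fac L S 1 where
  cm i k _ _ := ⟨by rw [mul_one, one_mul], by rw [mul_one, one_mul]⟩
  step j P _ h y hy := by
    have := h y (N.J_anti L hy)
    rwa [one_mul] at this

theorem comm_val_inv {g x : Eˣ} (h : (g : E) * x = x * g) :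
    (g : E) * ((x⁻¹ : Eˣ) : E) = ((x⁻¹ : Eˣ) : E) * g := by
  have h1 : Commute g x := Units.ext h
  exact congrArg Units.val h1.inv_right.eq

theorem l_comm_X {i j k : Fin n} (h : i ≠ j) (hk : k ≠ i) :
    (N.l i j : E) * N.X k = N.X k * N.l i j := by
  exact_mod_cast congrArg Units.val (N.l_mul_other h hk)

theorem r_comm_X {i j k : Fin n} (h : i ≠ j) (hk : k ≠ i) :
    (N.r i j : E) * N.X k = N.X k * N.r i j := by
  exact_mod_cast congrArg Units.val (N.r_mul_other h hk)

theorem Fac_sign {i : Fin n} (hu : IsUnit ((N.X i : E) + 1)) :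
    N.Fac L {i} ((N.X i : E) - (((N.X i)⁻¹ : Eˣ) : E)) where
  cm i' k hi' hk := by
    have hne : i ≠ i' := fun h => hi' (by rw [h]; exact Finset.mem_singleton_self _)
    have h1 := N.l_comm_X hk hne
    have h2 := N.r_comm_X hk hne
    have h3 := comm_val_inv h1
    have h4 := comm_val_inv h2
    exact ⟨by rw [mul_sub, sub_mul, h1, h3], by rw [mul_sub, sub_mul, h2, h4]⟩
  step j P hP h := N.sign_step L (fun k hk => (hP i k (Finset.mem_singleton_self _) hk).1) hu h

theorem Fac_tri {a b : Fin n} (hab : a ≠ b) {w : L} (hw3 : w ^ 3 = 1) (hw : w ≠ 1) :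
    N.Fac L {a, b} (N.tri L w a b) where
  cm i k hi hk := by
    have ha : a ≠ i := fun h => hi (by simp [h])
    have hb : b ≠ i := fun h => hi (by simp [h])
    have h1 := N.l_comm_X hk ha
    have h2 := N.r_comm_X hk ha
    have h3 := N.l_comm_X hk hb
    have h4 := N.r_comm_X hk hb
    have h5 := comm_val_inv h1
    have h6 := comm_val_inv h2
    have h7 := comm_val_inv h3
    have h8 := comm_val_inv h4
    constructor
    · rw [tri]
      simp only [mul_add, add_mul, mul_smul_comm, smul_mul_assoc, Units.val_mul, h1, h3]
      rw [← mul_assoc, h7, mul_assoc, h5, mul_assoc]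
    · rw [tri]
      simp only [mul_add, add_mul, mul_smul_comm, smul_mul_assoc, Units.val_mul, h2, h4]
      rw [← mul_assoc, h8, mul_assoc, h6, mul_assoc]
  step j P hP h := N.tri_step L hab hw3 hw (fun k hk => (hP a k (by simp) hk).1)
    (fun k hk => (hP a k (by simp) hk).2) (fun k hk => (hP b k (by simp) hk).1)
    (fun k hk => (hP b k (by simp) hk).2) h

theorem prod_step {ι : Type*} (S : ι → Finset (Fin n)) (f : ι → E)
    (hf : ∀ t, N.Fac L (S t) (f t)) (l : List ι) (hl : l.Pairwise fun s t => Disjoint (S s) (S t)) :
    ∀ j, (∀ y ∈ N.J L j, (l.map f).prod * y = 0) → ∀ y ∈ N.J L (j + l.length), y = 0 := by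
  induction l using List.reverseRecOn with
  | nil =>
    intro j h y hy
    have := h y hy
    simpa using this
  | append_singleton l t ih =>
    intro j h y hy
    rw [List.pairwise_append] at hl
    obtain ⟨hl1, -, hl2⟩ := hl
    have hcm : ∀ i k, i ∈ S t → i ≠ k →
        (N.l i k : E) * (l.map f).prod = (l.map f).prod * N.l i k ∧
        (N.r i k : E) * (l.map f).prod = (l.map f).prod * N.r i k := by
      intro i k hi hk
      have hall : ∀ s ∈ l, i ∉ S s := fun s hs his =>
        Finset.disjoint_left.1 (hl2 s hs t (List.mem_singleton.2 rfl)) his hi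
      constructor
      · have : Commute (N.l i k : E) (l.map f).prod := by
          refine Commute.list_prod_right _ _ ?_
          intro x hx
          obtain ⟨s, hs, rfl⟩ := List.mem_map.1 hx
          exact ((hf s).cm i k (hall s hs) hk).1
        exact this
      · have : Commute (N.r i k : E) (l.map f).prod := by
          refine Commute.list_prod_right _ _ ?_
          intro x hx
          obtain ⟨s, hs, rfl⟩ := List.mem_map.1 hx
          exact ((hf s).cm i k (hall s hs) hk).2
        exact this
    have h1 := (hf t).step j (l.map f).prod hcm (fun z hz => by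
      have := h z hz
      rw [List.map_append, List.map_cons, List.map_nil, List.prod_append, List.prod_cons,
        List.prod_nil, mul_one, mul_assoc] at this
      exact this)
    refine ih hl1 (j + 1) h1 y ?_
    rw [List.length_append, List.length_singleton] at hy
    rwa [add_assoc, add_comm 1]

/-- conjugation by a unit -/
def cj (g : Eˣ) : E →ₗ[L] E where
  toFun x := g * x * ((g⁻¹ : Eˣ) : E)
  map_add' x y := by rw [mul_add, add_mul]
  map_smul' c x := by rw [mul_smul_comm, smul_mul_assoc, RingHom.id_apply]

theorem count {κ : Type*} [Fintype κ] {k : ℕ} (S : Fin k → Finset (Fin n))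
    (hS : ∀ s t, s ≠ t → Disjoint (S s) (S t)) (f : Fin k → κ → E)
    (hf : ∀ t c, N.Fac L (S t) (f t c)) (g : Fin k → Eˣ) (χ : κ → L)
    (hχ : Function.Injective χ)
    (h1 : ∀ t c, (g t : E) * f t c * (((g t)⁻¹ : Eˣ) : E) = χ c • f t c)
    (h2 : ∀ t s c, s ≠ t → (g t : E) * f s c * (((g t)⁻¹ : Eˣ) : E) = f s c)
    (hJ : N.J L k ≠ ⊥) : Fintype.card κ ^ k ≤ Module.finrank L E := by
  classical
  let y : (Fin k → κ) → E := fun e => ((List.finRange k).map fun t => f t (e t)).prod
  have hy : ∀ e, y e ≠ 0 := by
    intro e he
    refine hJ ((Submodule.eq_bot_iff _).2 ?_)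
    have := N.prod_step L S (fun t => f t (e t)) (fun t => hf t (e t)) (List.finRange k)
      ((List.nodup_finRange k).imp fun {a b} hab => hS a b hab) 0 (by
        intro z _
        change y e * z = 0
        rw [he, zero_mul])
    rwa [List.length_finRange, zero_add] at this
  have hT : ∀ e t, cj L (g t) (y e) = χ (e t) • y e := by
    intro e t
    let φ : E →* E :=
      { toFun := fun x => (g t : E) * x * (((g t)⁻¹ : Eˣ) : E)
        map_one' := by rw [mul_one, Units.mul_inv]
        map_mul' := by
          intro x z
          have : (((g t)⁻¹ : Eˣ) : E) * (g t : E) = 1 := Units.inv_mul _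
          calc (g t : E) * (x * z) * (((g t)⁻¹ : Eˣ) : E)
              = (g t : E) * x * (1 * z) * (((g t)⁻¹ : Eˣ) : E) := by noncomm_ring
            _ = (g t : E) * x * ((((g t)⁻¹ : Eˣ) : E) * (g t : E) * z) *
                (((g t)⁻¹ : Eˣ) : E) := by rw [this]
            _ = _ := by noncomm_ring }
    have h3 := map_list_prod_smul (L := L) φ
      (fun c x => by
        change (g t : E) * (c • x) * (((g t)⁻¹ : Eˣ) : E) = c • ((g t : E) * x * _)
        rw [mul_smul_comm, smul_mul_assoc])
      (fun s => f s (e s)) (fun s => if s = t then χ (e t) else 1)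
      (by
        intro s
        by_cases hst : s = t
        · subst hst
          rw [if_pos rfl]
          exact h1 s (e s)
        · rw [if_neg hst, one_smul]
          exact h2 t s (e s) hst) (List.finRange k)
    have h4 : ((List.finRange k).map fun s => if s = t then χ (e t) else 1).prod = χ (e t) := by
      rw [← Fin.prod_univ_def, Finset.prod_ite_eq' Finset.univ t, if_pos (Finset.mem_univ t)]
    rw [h4] at h3
    exact h3
  have h5 := card_le_of_eigen (fun t => cj L (g t)) y hy (fun e t => χ (e t)) hT
    (fun e e' h => funext fun t => hχ (congrFun h t))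
  rwa [Fintype.card_fun, Fintype.card_fin] at h5

/-- the bound from the sign automorphisms -/
theorem sign_bound {k : ℕ} (N : Niel (k + 1) Eˣ) (h2 : (2 : L) ≠ 0)
    (hu : ∀ i, IsUnit ((N.X i : E) + 1)) (hJ : N.J L k ≠ ⊥) :
    2 ^ k ≤ Module.finrank L E := by
  have hne : ∀ t : Fin k, t.castSucc ≠ Fin.last k := fun t => (Fin.castSucc_lt_last t).ne
  let g : Fin k → Eˣ := fun t => N.tau t.castSucc (Fin.last k) * N.tau t.castSucc (Fin.last k)
  have hg : ∀ t, MulAut.conj (g t) (N.X t.castSucc) = (N.X t.castSucc)⁻¹ := by
    intro t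
    rw [map_mul, MulAut.mul_apply, N.tau_left (hne t), N.tau_right (hne t)]
  have hg' : ∀ t s, s ≠ t → MulAut.conj (g t) (N.X s.castSucc) = N.X s.castSucc := by
    intro t s hst
    have h3 : s.castSucc ≠ t.castSucc := fun h => hst (Fin.castSucc_injective k h)
    rw [map_mul, MulAut.mul_apply, N.tau_other (hne t) h3 (hne s),
      N.tau_other (hne t) h3 (hne s)]
  have h3 := N.count L (κ := Bool) (k := k) (fun t => {t.castSucc})
    (fun s t hst => Finset.disjoint_singleton.2 fun h => hst (Fin.castSucc_injective k h))
    (fun t c => if c then (N.X t.castSucc : E) - (((N.X t.castSucc)⁻¹ : Eˣ) : E) else 1)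
    (fun t c => by
      cases c
      · exact N.Fac_one L _
      · exact N.Fac_sign L (hu _))
    g (fun c => if c then -1 else 1)
    (by
      intro a b hab
      cases a <;> cases b
      · rfl
      · exfalso
        apply h2
        have : (1 : L) = -1 := hab
        linear_combination this
      · exfalso
        apply h2
        have : (-1 : L) = 1 := hab
        linear_combination -this
      · rfl)
    (by
      intro t c
      cases c
      · simp
      · have e1 := congrArg Units.val (hg t)
        have e2 := congrArg (fun x : Eˣ => ((x⁻¹ : Eˣ) : E)) (hg t)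
        simp only [MulAut.conj_apply, Units.val_mul] at e1
        simp only [MulAut.conj_apply, mul_inv_rev, inv_inv, Units.val_mul] at e2
        simp only [if_true]
        rw [mul_sub, sub_mul, e1, mul_assoc, e2, neg_smul, one_smul, neg_sub])
    (by
      intro t s c hst
      cases c
      · simp
      · have e1 := congrArg Units.val (hg' t s hst)
        have e2 := congrArg (fun x : Eˣ => ((x⁻¹ : Eˣ) : E)) (hg' t s hst)
        simp only [MulAut.conj_apply, Units.val_mul] at e1
        simp only [MulAut.conj_apply, mul_inv_rev, inv_inv, Units.val_mul] at e2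
        simp only [if_true]
        rw [mul_sub, sub_mul, e1, mul_assoc (g t : E), e2]) hJ
  simpa using h3

/-- the bound from the automorphisms of order three -/
theorem tri_bound {k : ℕ} (a b : Fin k → Fin n) (hab : ∀ s t, a s ≠ b t)
    (ha : Function.Injective a) (hb : Function.Injective b) {w : L} (hw3 : w ^ 3 = 1)
    (hw : w ≠ 1) (hJ : N.J L k ≠ ⊥) : 3 ^ k ≤ Module.finrank L E := by
  have hg1 : ∀ t, MulAut.conj (N.theta (a t) (b t)) (N.X (a t)) = N.X (b t) := fun t =>
    N.theta_left (hab t t)
  have hg2 : ∀ t, MulAut.conj (N.theta (a t) (b t)) (N.X (b t)) =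
      (N.X (b t))⁻¹ * (N.X (a t))⁻¹ := fun t => N.theta_right (hab t t)
  have hg3 : ∀ t s, s ≠ t → MulAut.conj (N.theta (a t) (b t)) (N.X (a s)) = N.X (a s) :=
    fun t s hst => N.theta_other (hab t t) (fun h => hst (ha h)) (hab s t)
  have hg4 : ∀ t s, s ≠ t → MulAut.conj (N.theta (a t) (b t)) (N.X (b s)) = N.X (b s) :=
    fun t s hst => N.theta_other (hab t t) (fun h => hab t s h.symm) (fun h => hst (hb h))
  have hw2 : (w ^ 2) ^ 3 = 1 := by rw [← pow_mul, mul_comm, pow_mul, hw3, one_pow]
  have hw2' : w ^ 2 ≠ 1 := by
    intro h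
    apply hw
    have : w ^ 3 = w ^ 2 * w := by ring
    rw [hw3, h, one_mul] at this
    exact this.symm
  have hw0 : w ≠ 0 := by
    rintro rfl
    norm_num at hw3
  have heig : ∀ (v : L), v ^ 3 = 1 → ∀ t, (N.theta (a t) (b t) : E) * N.tri L v (a t) (b t) *
      (((N.theta (a t) (b t))⁻¹ : Eˣ) : E) = v • N.tri L v (a t) (b t) := by
    intro v hv t
    have e1 := congrArg Units.val (hg1 t)
    have e2 := congrArg Units.val (hg2 t)
    have e3 : MulAut.conj (N.theta (a t) (b t)) ((N.X (b t))⁻¹ * (N.X (a t))⁻¹) = N.X (a t) := by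
      rw [map_mul, map_inv, map_inv, hg1, hg2]; group
    have e4 := congrArg Units.val e3
    simp only [MulAut.conj_apply, Units.val_mul] at e1 e2 e4
    rw [tri]
    simp only [mul_add, add_mul, mul_smul_comm, smul_mul_assoc, Units.val_mul, smul_add, smul_smul]
    rw [e1, e2]
    have e5 : (N.theta (a t) (b t) : E) * ((((N.X (b t))⁻¹ : Eˣ) : E) *
        (((N.X (a t))⁻¹ : Eˣ) : E)) * (((N.theta (a t) (b t))⁻¹ : Eˣ) : E) = N.X (a t) := e4
    have c1 : v * v ^ 2 = 1 := by rw [← hv]; ring
    have c2 : v * v = v ^ 2 := by ring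
    rw [e5, c1, c2, one_smul]
    abel
  have hfix : ∀ (v : L) t s, s ≠ t → (N.theta (a t) (b t) : E) * N.tri L v (a s) (b s) *
      (((N.theta (a t) (b t))⁻¹ : Eˣ) : E) = N.tri L v (a s) (b s) := by
    intro v t s hst
    have e1 := congrArg Units.val (hg3 t s hst)
    have e2 := congrArg Units.val (hg4 t s hst)
    have e3 : MulAut.conj (N.theta (a t) (b t)) ((N.X (b s))⁻¹ * (N.X (a s))⁻¹) =
        (N.X (b s))⁻¹ * (N.X (a s))⁻¹ := by
      rw [map_mul, map_inv, map_inv, hg3 t s hst, hg4 t s hst]
    have e4 := congrArg Units.val e3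
    simp only [MulAut.conj_apply, Units.val_mul] at e1 e2 e4
    rw [tri]
    simp only [mul_add, add_mul, mul_smul_comm, smul_mul_assoc, Units.val_mul]
    rw [e1, e2, e4]
  have h3 := N.count L (κ := Fin 3) (k := k) (fun t => {a t, b t})
    (fun s t hst => by
      rw [Finset.disjoint_left]
      intro x hx hx'
      simp only [Finset.mem_insert, Finset.mem_singleton] at hx hx'
      rcases hx with rfl | rfl <;> rcases hx' with h | h
      · exact hst (ha h)
      · exact hab _ _ h
      · exact hab _ _ h.symm
      · exact hst (hb h))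
    (fun t c => if c = 0 then 1 else N.tri L (w ^ (c : ℕ)) (a t) (b t))
    (fun t c => by
      fin_cases c
      · exact N.Fac_one L _
      · have := N.Fac_tri L (hab t t) (w := w ^ 1) (by rw [pow_one]; exact hw3)
          (by rw [pow_one]; exact hw)
        exact this
      · exact N.Fac_tri L (hab t t) hw2 hw2')
    (fun t => N.theta (a t) (b t)) (fun c => w ^ (c : ℕ))
    (by
      intro x y hxy
      fin_cases x <;> fin_cases y
      · rfl
      · exact absurd hxy.symm (by simpa using hw)
      · exact absurd hxy.symm (by simpa using hw2')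
      · exact absurd hxy (by simpa using hw)
      · rfl
      · exfalso
        apply hw
        have h4 : w ^ 1 = w ^ 2 := hxy
        have h5 : w * 1 = w * w := by rw [mul_one]; linear_combination h4
        exact (mul_left_cancel₀ hw0 h5).symm
      · exact absurd hxy (by simpa using hw2')
      · exfalso
        apply hw
        have h4 : w ^ 2 = w ^ 1 := hxy
        have h5 : w * 1 = w * w := by rw [mul_one]; linear_combination -h4
        exact (mul_left_cancel₀ hw0 h5).symm
      · rfl)
    (by
      intro t c
      fin_cases c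
      · simp
      · have := heig (w ^ 1) (by rw [pow_one]; exact hw3) t
        exact this
      · exact heig (w ^ 2) hw2 t)
    (by
      intro t s c hst
      fin_cases c
      · simp
      · exact hfix (w ^ 1) t s hst
      · exact hfix (w ^ 2) t s hst) hJ
  simpa using h3

end Niel

end Pool.Agent.FSX
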