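import Mathlib

/-!
Exact Nielsen data in the unit group of an algebra, and the filtration of the algebra by the powers
of the augmentation ideal.
-/

namespace Pool.Agent.FSX

/-- Elements `X i` and `l i j`, `r i j` of a group such that `l i j` and `r i j` act on the `X i` by
conjugation as the left and right Nielsen transformations. -/
structure Niel (n : ℕ) (G : Type*) [Group G] where
  X : Fin n → G
  l : Fin n → Fin n → G
  r : Fin n → Fin n → G
  l_self : ∀ i j, i ≠ j → l i j * X i * (l i j)⁻¹ = X j * X i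
  l_other : ∀ i j k, i ≠ j → k ≠ i → l i j * X k * (l i j)⁻¹ = X k
  r_self : ∀ i j, i ≠ j → r i j * X i * (r i j)⁻¹ = X i * X j
  r_other : ∀ i j k, i ≠ j → k ≠ i → r i j * X k * (r i j)⁻¹ = X k

namespace Niel

section group

variable {n : ℕ} {G : Type*} [Group G] (N : Niel n G)

theorem l_mul_self {i j : Fin n} (h : i ≠ j) : N.l i j * N.X i = N.X j * N.X i * N.l i j :=
  mul_inv_eq_iff_eq_mul.1 (N.l_self i j h)

theorem l_mul_other {i j k : Fin n} (h : i ≠ j) (hk : k ≠ i) :
    N.l i j * N.X k = N.X k * N.l i j :=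
  mul_inv_eq_iff_eq_mul.1 (N.l_other i j k h hk)

theorem r_mul_self {i j : Fin n} (h : i ≠ j) : N.r i j * N.X i = N.X i * N.X j * N.r i j :=
  mul_inv_eq_iff_eq_mul.1 (N.r_self i j h)

theorem r_mul_other {i j k : Fin n} (h : i ≠ j) (hk : k ≠ i) :
    N.r i j * N.X k = N.X k * N.r i j :=
  mul_inv_eq_iff_eq_mul.1 (N.r_other i j k h hk)

end group

variable (L : Type*) {E : Type*} [Field L] [Ring E] [Algebra L E] {n : ℕ} (N : Niel n Eˣ)

/-- the powers of the augmentation ideal -/
noncomputable def J : ℕ → Submodule L E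
  | 0 => ⊤
  | j + 1 => ⨆ k : Fin n, (J j).map (LinearMap.mulLeft L ((N.X k : E) - 1))

theorem sub_mul_mem {j : ℕ} {y : E} (hy : y ∈ N.J L j) (k : Fin n) :
    ((N.X k : E) - 1) * y ∈ N.J L (j + 1) := by
  rw [J]
  exact Submodule.mem_iSup_of_mem k ⟨y, hy, rfl⟩

theorem J_succ_le {j : ℕ} {S : Submodule L E}
    (h : ∀ k, ∀ y ∈ N.J L j, ((N.X k : E) - 1) * y ∈ S) : N.J L (j + 1) ≤ S := by
  rw [J, iSup_le_iff]
  intro k
  rw [Submodule.map_le_iff_le_comap]
  exact fun y hy => h k y hy

theorem X_mul_mem_and (j : ℕ) : (∀ k, ∀ y ∈ N.J L j, (N.X k : E) * y ∈ N.J L j) ∧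
    N.J L (j + 1) ≤ N.J L j := by
  induction j with
  | zero => exact ⟨fun _ _ _ => by rw [J]; trivial, by rw [J]; exact le_top⟩
  | succ j ih =>
    have h1 : ∀ k, ∀ y ∈ N.J L (j + 1), (N.X k : E) * y ∈ N.J L (j + 1) := by
      intro k y hy
      have h2 := N.sub_mul_mem L (ih.2 hy) k
      have h3 : (N.X k : E) * y = ((N.X k : E) - 1) * y + y := by noncomm_ring
      rw [h3]
      exact Submodule.add_mem _ h2 hy
    refine ⟨h1, N.J_succ_le L fun k y hy => ?_⟩
    rw [sub_mul, one_mul]
    exact Submodule.sub_mem _ (h1 k y hy) hy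

theorem X_mul_mem {j : ℕ} (k : Fin n) {y : E} (hy : y ∈ N.J L j) : (N.X k : E) * y ∈ N.J L j :=
  (N.X_mul_mem_and L j).1 k y hy

theorem J_anti {j : ℕ} : N.J L (j + 1) ≤ N.J L j := (N.X_mul_mem_and L j).2

theorem J_antitone : Antitone (N.J L) := antitone_nat_of_succ_le fun _ => N.J_anti L

theorem l_mul_mem (j : ℕ) {i k : Fin n} (hik : i ≠ k) :
    ∀ y ∈ N.J L j, (N.l i k : E) * y ∈ N.J L j := by
  induction j with
  | zero => exact fun _ _ => by rw [J]; trivial
  | succ j ih =>
    have : N.J L (j + 1) ≤ (N.J L (j + 1)).comap (LinearMap.mulLeft L (N.l i k : E)) := by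
      refine N.J_succ_le L fun t y hy => ?_
      rw [Submodule.mem_comap, LinearMap.mulLeft_apply]
      have hly := ih y hy
      by_cases ht : t = i
      · subst ht
        have h1 : (N.l t k : E) * N.X t = N.X k * N.X t * N.l t k := by
          exact_mod_cast congrArg Units.val (N.l_mul_self hik)
        have h2 : (N.l t k : E) * (((N.X t : E) - 1) * y) =
            ((N.X k : E) - 1) * ((N.X t : E) * ((N.l t k : E) * y)) +
              ((N.X t : E) - 1) * ((N.l t k : E) * y) := by
          have h3 : (N.l t k : E) * (((N.X t : E) - 1) * y) =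
            ((N.l t k : E) * N.X t) * y - (N.l t k : E) * y := by noncomm_ring
          rw [h3, h1]; noncomm_ring
        rw [h2]
        exact Submodule.add_mem _ (N.sub_mul_mem L (N.X_mul_mem L t hly) k)
          (N.sub_mul_mem L hly t)
      · have h1 : (N.l i k : E) * N.X t = N.X t * N.l i k := by
          exact_mod_cast congrArg Units.val (N.l_mul_other hik ht)
        have h2 : (N.l i k : E) * (((N.X t : E) - 1) * y) =
            ((N.X t : E) - 1) * ((N.l i k : E) * y) := by
          have h3 : (N.l i k : E) * (((N.X t : E) - 1) * y) =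
            ((N.l i k : E) * N.X t) * y - (N.l i k : E) * y := by noncomm_ring
          rw [h3, h1]; noncomm_ring
        rw [h2]
        exact N.sub_mul_mem L hly t
    exact fun y hy => this hy

theorem r_mul_mem (j : ℕ) {i k : Fin n} (hik : i ≠ k) :
    ∀ y ∈ N.J L j, (N.r i k : E) * y ∈ N.J L j := by
  induction j with
  | zero => exact fun _ _ => by rw [J]; trivial
  | succ j ih =>
    have : N.J L (j + 1) ≤ (N.J L (j + 1)).comap (LinearMap.mulLeft L (N.r i k : E)) := by
      refine N.J_succ_le L fun t y hy => ?_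
      rw [Submodule.mem_comap, LinearMap.mulLeft_apply]
      have hly := ih y hy
      by_cases ht : t = i
      · subst ht
        have h1 : (N.r t k : E) * N.X t = N.X t * N.X k * N.r t k := by
          exact_mod_cast congrArg Units.val (N.r_mul_self hik)
        have h2 : (N.r t k : E) * (((N.X t : E) - 1) * y) =
            ((N.X t : E) - 1) * ((N.X k : E) * ((N.r t k : E) * y)) +
              ((N.X k : E) - 1) * ((N.r t k : E) * y) := by
          have h3 : (N.r t k : E) * (((N.X t : E) - 1) * y) =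
            ((N.r t k : E) * N.X t) * y - (N.r t k : E) * y := by noncomm_ring
          rw [h3, h1]; noncomm_ring
        rw [h2]
        exact Submodule.add_mem _ (N.sub_mul_mem L (N.X_mul_mem L k hly) t)
          (N.sub_mul_mem L hly k)
      · have h1 : (N.r i k : E) * N.X t = N.X t * N.r i k := by
          exact_mod_cast congrArg Units.val (N.r_mul_other hik ht)
        have h2 : (N.r i k : E) * (((N.X t : E) - 1) * y) =
            ((N.X t : E) - 1) * ((N.r i k : E) * y) := by
          have h3 : (N.r i k : E) * (((N.X t : E) - 1) * y) =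
            ((N.r i k : E) * N.X t) * y - (N.r i k : E) * y := by noncomm_ring
          rw [h3, h1]; noncomm_ring
        rw [h2]
        exact N.sub_mul_mem L hly t
    exact fun y hy => this hy

variable [FiniteDimensional L E]

omit N in
theorem inv_mul_mem {S : Submodule L E} {g : Eˣ} (h : ∀ y ∈ S, (g : E) * y ∈ S) :
    ∀ y ∈ S, ((g⁻¹ : Eˣ) : E) * y ∈ S := by
  intro y hy
  let f : S →ₗ[L] S := (LinearMap.mulLeft L (g : E)).restrict h
  have hf : Function.Injective f := by
    rw [injective_iff_map_eq_zero]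
    intro a ha
    have h1 : (g : E) * (a : E) = 0 := congrArg Subtype.val ha
    exact Subtype.ext ((Units.mul_right_eq_zero g).1 h1)
  have hs : Function.Surjective f := LinearMap.injective_iff_surjective.1 hf
  obtain ⟨z, hz⟩ := hs ⟨y, hy⟩
  have h2 : (g : E) * (z : E) = y := congrArg Subtype.val hz
  rw [← h2, Units.inv_mul_cancel_left]
  exact z.2

/-- the units preserving `J j` -/
def Sta (j : ℕ) : Subgroup Eˣ where
  carrier := {g | ∀ y ∈ N.J L j, (g : E) * y ∈ N.J L j}
  mul_mem' := by
    intro a b ha hb y hy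
    rw [Units.val_mul, mul_assoc]
    exact ha _ (hb _ hy)
  one_mem' := by
    intro y hy
    rw [Units.val_one, one_mul]; exact hy
  inv_mem' := by
    intro a ha
    exact inv_mul_mem L ha

theorem mem_Sta {j : ℕ} {g : Eˣ} : g ∈ N.Sta L j ↔ ∀ y ∈ N.J L j, (g : E) * y ∈ N.J L j := Iff.rfl

theorem X_mem (j : ℕ) (k : Fin n) : N.X k ∈ N.Sta L j := fun _ hy => N.X_mul_mem L k hy

theorem l_mem (j : ℕ) {i k : Fin n} (hik : i ≠ k) : N.l i k ∈ N.Sta L j := N.l_mul_mem L j hik

theorem r_mem (j : ℕ) {i k : Fin n} (hik : i ≠ k) : N.r i k ∈ N.Sta L j := N.r_mul_mem L j hik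

/-- From `P (X i - 1) J j = 0` to `P J (j + 1) = 0`, when `P` does not involve `X i`. -/
theorem step_aux {j : ℕ} {P : E} {i : Fin n}
    (hP : ∀ k, i ≠ k → (N.l i k : E) * P = P * N.l i k)
    (h : ∀ y ∈ N.J L j, P * (((N.X i : E) - 1) * y) = 0) : ∀ y ∈ N.J L (j + 1), P * y = 0 := by
  have : N.J L (j + 1) ≤ LinearMap.ker (LinearMap.mulLeft L P) := by
    refine N.J_succ_le L fun k y hy => ?_
    rw [LinearMap.mem_ker, LinearMap.mulLeft_apply]
    by_cases hk : i = k
    · subst hk; exact h y hy
    · obtain ⟨y', hy', rfl⟩ : ∃ y' ∈ N.J L j, (N.X i : E) * y' = y :=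
        ⟨_, (N.Sta L j).inv_mem (N.X_mem L j i) y hy, Units.mul_inv_cancel_left _ _⟩
      obtain ⟨z, hz, rfl⟩ : ∃ z ∈ N.J L j, (N.l i k : E) * z = y' :=
        ⟨_, (N.Sta L j).inv_mem (N.l_mem L j hk) y' hy', Units.mul_inv_cancel_left _ _⟩
      have h1 : (N.l i k : E) * N.X i = N.X k * N.X i * N.l i k := by
        exact_mod_cast congrArg Units.val (N.l_mul_self hk)
      have h2 := congrArg (fun e => (N.l i k : E) * e) (h z hz)
      have h3 := h _ hy'
      simp only [mul_zero] at h2
      have h4 : (N.l i k : E) * (P * (((N.X i : E) - 1) * z)) =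
          P * (((N.X k : E) - 1) * ((N.X i : E) * ((N.l i k : E) * z))) +
            P * (((N.X i : E) - 1) * ((N.l i k : E) * z)) := by
        have h5 : (N.l i k : E) * (P * (((N.X i : E) - 1) * z)) =
          ((N.l i k : E) * P) * (((N.X i : E) - 1) * z) := by noncomm_ring
        have h6 : P * (N.l i k : E) * (((N.X i : E) - 1) * z) =
          P * (((N.l i k : E) * N.X i) * z) - P * ((N.l i k : E) * z) := by noncomm_ring
        rw [h5, hP k hk, h6, h1]; noncomm_ring
      rw [h4, h3, add_zero] at h2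
      exact h2
  exact fun y hy => this hy

end Niel

end Pool.Agent.FSX
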