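import Pool.Agent.FSX.Main
import Pool.Agent.FSC.Quot

/-!
The degree bounds for simple characteristic quotients of free groups.
-/

namespace Pool.Agent.FSX

open Pool.Agent.FSC

variable {n : ℕ} (N : Subgroup (FreeGroup (Fin n))) [hN : N.Characteristic]
  [hS : IsSimpleGroup (FreeGroup (Fin n) ⧸ N)]

include hN hS in
/-- a homomorphism from `Aut(S)` which does not kill the inner automorphisms is injective -/
theorem injective_of_aut {H : Type*} [Group H]
    (f : MulAut (FreeGroup (Fin n) ⧸ N) →* H) (hf : ∃ s, f (MulAut.conj s) ≠ 1) :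
    Function.Injective f := by
  rcases (inferInstance : (f.comp MulAut.conj).ker.Normal).eq_bot_or_eq_top with h | h
  · rw [injective_iff_map_eq_one]
    intro g hg
    ext y
    rw [MulAut.one_apply]
    have h1 : g y * y⁻¹ ∈ (f.comp MulAut.conj).ker := by
      rw [MonoidHom.mem_ker, MonoidHom.comp_apply, map_mul, map_mul, ← conj_conj,
        MulAut.conj_apply, map_mul, map_mul, map_inv, hg, one_mul, inv_one, mul_one, ← map_mul,
        ← map_mul, mul_inv_cancel, map_one, map_one]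
    rw [h, Subgroup.mem_bot] at h1
    exact mul_inv_eq_one.1 h1
  · obtain ⟨s, hs⟩ := hf
    exfalso
    apply hs
    have h1 : s ∈ (f.comp MulAut.conj).ker := by rw [h]; trivial
    exact h1

include hN hS in
theorem injective_of_ne_one {H : Type*} [Group H] (f : FreeGroup (Fin n) ⧸ N →* H)
    (hf : f ≠ 1) : Function.Injective f := by
  rcases (inferInstance : f.ker.Normal).eq_bot_or_eq_top with h | h
  · exact (MonoidHom.ker_eq_bot_iff f).1 h
  · exfalso
    apply hf
    exact MonoidHom.ext fun s => MonoidHom.mem_ker.1 (by rw [h]; trivial : s ∈ f.ker)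

/-- The order of the elements of finite order in the subgroup generated by some of the `s i`. -/
theorem order_of_dat {A : Type*} [Group A] (D : Dat n A) (hn : 3 ≤ n) {K : Type*} [Field K]
    {d : ℕ} (I : Finset (Fin n)) (hI : I.Nonempty) (hd : d < 2 ^ (n - I.card))
    (f : A →* Matrix.ProjGenLinGroup (Fin d) K) (hf : Function.Injective f)
    (hfin : ∀ s ∈ Subgroup.closure (D.s '' (I : Set (Fin n))), IsOfFinOrder s) :
    ∃ p : ℕ, p.Prime ∧ CharP K p ∧
      ∀ s ∈ Subgroup.closure (D.s '' (I : Set (Fin n))), ∃ a : ℕ, s ^ p ^ a = 1 := by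
  obtain ⟨R⟩ := exists_PRep (L := AlgebraicClosure K) f hf
  obtain ⟨q, hq⟩ := ExpChar.exists (AlgebraicClosure K)
  have key := fun s hs => exists_pow_eq_one D R hn q I hI hd hs (hfin s hs)
  rcases hq with _ | hp
  · exfalso
    obtain ⟨i, hi⟩ := hI
    obtain ⟨a, ha⟩ := key (D.s i) (Subgroup.subset_closure ⟨i, hi, rfl⟩)
    rw [one_pow, pow_one] at ha
    exact D.s_ne i ha
  · refine ⟨q, hp, ?_, key⟩
    exact ((algebraMap K (AlgebraicClosure K)).charP_iff
      (algebraMap K (AlgebraicClosure K)).injective q).2 inferInstance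

/-- the condition on the degree `d`, where `o` is the order of the images of the basis elements -/
def Small (n : ℕ) (K : Type*) [Field K] (o d : ℕ) : Prop :=
  d ^ 2 < 3 ^ (n / 2) ∨ ((2 : K) ≠ 0 ∧ d ^ 2 < 2 ^ (n - 1)) ∨
    (0 < o ∧ (∀ a : ℕ, o ≠ ringExpChar K ^ a) ∧ d < 2 ^ (n - 1))

/-- The exponential bounds for the degree `d` over `K`. -/
theorem bound_of_dat {A : Type*} [Group A] (D : Dat n A) (hn : 3 ≤ n) {K : Type*} [Field K]
    {d : ℕ} (i : Fin n) (hd : Small n K (orderOf (D.s i)) d)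
    (f : A →* Matrix.ProjGenLinGroup (Fin d) K) (hf : Function.Injective f) : False := by
  rcases hd with hd | ⟨h2, hd⟩ | ⟨ho, hoa, hd⟩
  · obtain ⟨R⟩ := exists_PRep (L := AlgebraicClosure K) f hf
    have := tri_main D R hn
    omega
  · obtain ⟨R⟩ := exists_PRep (L := AlgebraicClosure K) f hf
    have h2' : (2 : AlgebraicClosure K) ≠ 0 := by
      intro h
      apply h2
      apply (algebraMap K (AlgebraicClosure K)).injective
      rw [map_zero, ← h, map_ofNat]
    have := sign_main D R hn h2'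
    omega
  · have hfin : ∀ s ∈ Subgroup.closure (D.s '' (({i} : Finset (Fin n)) : Set (Fin n))),
        IsOfFinOrder s := by
      intro s hs
      rw [Finset.coe_singleton, Set.image_singleton, ← Subgroup.zpowers_eq_closure] at hs
      obtain ⟨k, rfl⟩ := Subgroup.mem_zpowers_iff.1 hs
      exact (orderOf_pos_iff.1 ho).zpow
    obtain ⟨p, hp, hK, h1⟩ := order_of_dat D hn {i} (Finset.singleton_nonempty i)
      (by rw [Finset.card_singleton]; exact hd) f hf hfin
    obtain ⟨a, ha⟩ := h1 (D.s i) (Subgroup.subset_closure ⟨i, by simp, rfl⟩)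
    obtain ⟨b, -, hb⟩ := (Nat.dvd_prime_pow hp).1 (orderOf_dvd_of_pow_eq_one ha)
    apply hoa b
    rw [hb]
    have : ExpChar K p := ExpChar.prime hp
    rw [ringExpChar.eq K p]

include hN hS in
theorem orderOf_conj (hn : 3 ≤ n) (s : FreeGroup (Fin n) ⧸ N) :
    orderOf (MulAut.conj s) = orderOf s :=
  orderOf_injective _ (conj_injective (center_eq_bot N hn)) s

include hN hS in
theorem exp_aut (hn : 3 ≤ n) {K : Type*} [Field K] {d : ℕ} (i : Fin n)
    (hd : Small n K (orderOf (gx N i)) d)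
    (f : MulAut (FreeGroup (Fin n) ⧸ N) →* Matrix.ProjGenLinGroup (Fin d) K)
    (s : FreeGroup (Fin n) ⧸ N) : f (MulAut.conj s) = 1 := by
  by_contra h
  refine bound_of_dat (dAut N hn) hn i ?_ f (injective_of_aut N f ⟨s, h⟩)
  have h1 : orderOf ((dAut N hn).s i) = orderOf (gx N i) := orderOf_conj N hn _
  rw [h1]
  exact hd

include hN hS in
theorem exp_simple (hn : 3 ≤ n) {K : Type*} [Field K] {d : ℕ} (i : Fin n)
    (hd : Small n K (orderOf (gx N i)) d)
    (hOut : ∃ k, derivedSeries (MulAut (FreeGroup (Fin n) ⧸ N)) k ≤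
      (MulAut.conj : FreeGroup (Fin n) ⧸ N →* MulAut (FreeGroup (Fin n) ⧸ N)).range)
    (f : FreeGroup (Fin n) ⧸ N →* Matrix.ProjGenLinGroup (Fin d) K) : f = 1 := by
  by_contra h
  obtain ⟨D, hD⟩ := dInner N hn hOut
  refine bound_of_dat D hn i ?_ f (injective_of_ne_one N f h)
  rw [hD]
  exact hd

include hN hS in
theorem pgroup_simple (hn : 3 ≤ n) [Finite (FreeGroup (Fin n) ⧸ N)] {K : Type*} [Field K] {d : ℕ}
    (I : Finset (Fin n)) (hI : I.Nonempty) (hd : d < 2 ^ (n - I.card))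
    (hOut : ∃ k, derivedSeries (MulAut (FreeGroup (Fin n) ⧸ N)) k ≤
      (MulAut.conj : FreeGroup (Fin n) ⧸ N →* MulAut (FreeGroup (Fin n) ⧸ N)).range)
    (f : FreeGroup (Fin n) ⧸ N →* Matrix.ProjGenLinGroup (Fin d) K) (hf : f ≠ 1) :
    ∃ p : ℕ, p.Prime ∧ CharP K p ∧
      IsPGroup p (Subgroup.closure (gx N '' (I : Set (Fin n)))) := by
  obtain ⟨D, hD⟩ := dInner N hn hOut
  obtain ⟨p, hp, hK, h1⟩ := order_of_dat D hn I hI hd f (injective_of_ne_one N f hf)
    (fun s _ => isOfFinOrder_of_finite s)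
  rw [hD] at h1
  refine ⟨p, hp, hK, ?_⟩
  rintro ⟨s, hs⟩
  obtain ⟨a, ha⟩ := h1 s hs
  exact ⟨a, Subtype.ext ha⟩

include hN hS in
theorem pgroup_aut (hn : 3 ≤ n) [Finite (FreeGroup (Fin n) ⧸ N)] {K : Type*} [Field K] {d : ℕ}
    (I : Finset (Fin n)) (hI : I.Nonempty) (hd : d < 2 ^ (n - I.card))
    (f : MulAut (FreeGroup (Fin n) ⧸ N) →* Matrix.ProjGenLinGroup (Fin d) K)
    (hf : ∃ s, f (MulAut.conj s) ≠ 1) :
    ∃ p : ℕ, p.Prime ∧ CharP K p ∧
      IsPGroup p (Subgroup.closure (gx N '' (I : Set (Fin n)))) := by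
  have hfinA : Finite (MulAut (FreeGroup (Fin n) ⧸ N)) :=
    Finite.of_injective (fun φ : MulAut (FreeGroup (Fin n) ⧸ N) => (φ : _ → _))
      DFunLike.coe_injective
  obtain ⟨p, hp, hK, h1⟩ := order_of_dat (dAut N hn) hn I hI hd f (injective_of_aut N f hf)
    (fun s _ => isOfFinOrder_of_finite s)
  refine ⟨p, hp, hK, ?_⟩
  rintro ⟨s, hs⟩
  have h2 : MulAut.conj s ∈ Subgroup.closure ((dAut N hn).s '' (I : Set (Fin n))) := by
    have h3 : (dAut N hn).s '' (I : Set (Fin n)) =
        (MulAut.conj : FreeGroup (Fin n) ⧸ N →* MulAut (FreeGroup (Fin n) ⧸ N)) ''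
          (gx N '' (I : Set (Fin n))) := by
      rw [← Set.image_comp]; rfl
    rw [h3, ← MonoidHom.map_closure]
    exact Subgroup.mem_map_of_mem _ hs
  obtain ⟨a, ha⟩ := h1 _ h2
  refine ⟨a, Subtype.ext ?_⟩
  apply conj_injective (center_eq_bot N hn)
  rw [SubmonoidClass.coe_pow, OneMemClass.coe_one, map_pow, map_one]
  exact ha

end Pool.Agent.FSX
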