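import Pool.Agent.FSC.Bound
import Pool.Agent.FSX.Filt

/-!
Normalised lifts: a projective representation of a Nielsen datum of rank at least four is given by
exact Nielsen data.
-/

namespace Pool.Agent.FSX

open Pool.Agent.FSC
open scoped commutatorElement

section group

variable {G : Type*} [Group G] {n : ℕ}

theorem conj_central {c : G} (hc : c ∈ Subgroup.center G) (g : G) : MulAut.conj g c = c := by
  rw [MulAut.conj_apply, Subgroup.mem_center_iff.1 hc g, mul_inv_cancel_right]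

theorem central_left {c : G} (hc : c ∈ Subgroup.center G) (g h : G) :
    g * (c * h) = c * (g * h) := by
  rw [← mul_assoc, Subgroup.mem_center_iff.1 hc g, mul_assoc]

theorem conj_mul_central {c : G} (hc : c ∈ Subgroup.center G) (g x : G) :
    MulAut.conj (c * g) x = MulAut.conj g x := by
  rw [map_mul, MulAut.mul_apply, MulAut.conj_apply c, mul_assoc, Subgroup.mem_center_iff.1
    (Subgroup.inv_mem _ hc), mul_inv_cancel_left]

/-- data which satisfy the Nielsen relations up to central elements -/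
structure PN (n : ℕ) (G : Type*) [Group G] where
  x : Fin n → G
  l : Fin n → Fin n → G
  r : Fin n → Fin n → G
  z : Fin n → Fin n → G
  z' : Fin n → Fin n → G
  hz : ∀ i j, z i j ∈ Subgroup.center G
  hz' : ∀ i j, z' i j ∈ Subgroup.center G
  l_self : ∀ i j, i ≠ j → MulAut.conj (l i j) (x i) = z i j * (x j * x i)
  l_other : ∀ i j k, i ≠ j → k ≠ i → MulAut.conj (l i j) (x k) = x k
  r_self : ∀ i j, i ≠ j → MulAut.conj (r i j) (x i) = z' i j * (x i * x j)
  r_other : ∀ i j k, i ≠ j → k ≠ i → MulAut.conj (r i j) (x k) = x k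
  l_comm : ∀ i j k, i ≠ j → i ≠ k → j ≠ k →
    ∃ c ∈ Subgroup.center G, l i j = c * ⁅r k j, l i k⁆
  r_comm : ∀ i j k, i ≠ j → i ≠ k → j ≠ k →
    ∃ c ∈ Subgroup.center G, r i j = c * ⁅l k j, r i k⁆

variable (P : PN n G)

namespace PN

theorem linv_self {i j : Fin n} (h : i ≠ j) :
    MulAut.conj (P.l i j)⁻¹ (P.x i) = (P.z i j)⁻¹ * ((P.x j)⁻¹ * P.x i) := by
  rw [map_inv, MulAut.inv_apply, MulEquiv.symm_apply_eq, map_mul, map_mul, map_inv, map_inv,
    P.l_self i j h, P.l_other i j j h h.symm, conj_central (P.hz i j), central_left (P.hz i j),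
    inv_mul_cancel_left, inv_mul_cancel_left]

theorem linv_other {i j k : Fin n} (h : i ≠ j) (hk : k ≠ i) :
    MulAut.conj (P.l i j)⁻¹ (P.x k) = P.x k := by
  rw [map_inv, MulAut.inv_apply, MulEquiv.symm_apply_eq, P.l_other i j k h hk]

theorem rinv_self {i j : Fin n} (h : i ≠ j) :
    MulAut.conj (P.r i j)⁻¹ (P.x i) = (P.z' i j)⁻¹ * (P.x i * (P.x j)⁻¹) := by
  rw [map_inv, MulAut.inv_apply, MulEquiv.symm_apply_eq, map_mul, map_mul, map_inv, map_inv,
    P.r_self i j h, P.r_other i j j h h.symm, conj_central (P.hz' i j), mul_assoc, mul_assoc,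
    mul_inv_cancel, mul_one, inv_mul_cancel_left]

theorem rinv_other {i j k : Fin n} (h : i ≠ j) (hk : k ≠ i) :
    MulAut.conj (P.r i j)⁻¹ (P.x k) = P.x k := by
  rw [map_inv, MulAut.inv_apply, MulEquiv.symm_apply_eq, P.r_other i j k h hk]

theorem z_eq {i j k : Fin n} (hij : i ≠ j) (hik : i ≠ k) (hjk : j ≠ k) :
    P.z i j = P.z' k j := by
  obtain ⟨c, hc, h1⟩ := P.l_comm i j k hij hik hjk
  have h2 := P.l_self i j hij
  have e1 := P.linv_self hik
  have e2 : MulAut.conj (P.r k j)⁻¹ ((P.z i k)⁻¹ * ((P.x k)⁻¹ * P.x i)) =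
      (P.z i k)⁻¹ * (((P.z' k j)⁻¹ * (P.x k * (P.x j)⁻¹))⁻¹ * P.x i) := by
    generalize hg : MulAut.conj (P.r k j)⁻¹ = g
    have f1 : g (P.z i k) = P.z i k := by rw [← hg]; exact conj_central (P.hz i k) _
    have f2 : g (P.x k) = (P.z' k j)⁻¹ * (P.x k * (P.x j)⁻¹) := by
      rw [← hg]; exact P.rinv_self hjk.symm
    have f3 : g (P.x i) = P.x i := by rw [← hg]; exact P.rinv_other hjk.symm hik
    rw [map_mul, map_mul, map_inv, map_inv, f1, f2, f3]
  have e3 : (P.z i k)⁻¹ * (((P.z' k j)⁻¹ * (P.x k * (P.x j)⁻¹))⁻¹ * P.x i) =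
      (P.z i k)⁻¹ * (P.z' k j * (P.x j * (P.x k)⁻¹ * P.x i)) := by
    rw [mul_inv_rev, mul_inv_rev, inv_inv, inv_inv, mul_assoc _ (P.z' k j), central_left (P.hz' k j)]
  have e4 : MulAut.conj (P.l i k) ((P.z i k)⁻¹ * (P.z' k j * (P.x j * (P.x k)⁻¹ * P.x i))) =
      P.z' k j * (P.x j * P.x i) := by
    have f0 : MulAut.conj (P.l i k) (P.z i k)⁻¹ = (P.z i k)⁻¹ :=
      conj_central (Subgroup.inv_mem _ (P.hz i k)) _
    have f1 : MulAut.conj (P.l i k) (P.z' k j) = P.z' k j := conj_central (P.hz' k j) _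
    have f2 : MulAut.conj (P.l i k) (P.x k)⁻¹ = (P.x k)⁻¹ := by
      rw [map_inv (MulAut.conj (P.l i k)), P.l_other i k k hik hik.symm]
    rw [map_mul, map_mul, map_mul, map_mul, f0, f1, f2, P.l_other i k j hik hij.symm,
      P.l_self i k hik, mul_assoc (P.x j), central_left (P.hz i k), inv_mul_cancel_left,
      central_left (P.hz i k), central_left (P.hz i k), inv_mul_cancel_left]
  have e5 : MulAut.conj (P.r k j) (P.z' k j * (P.x j * P.x i)) =
      P.z' k j * (P.x j * P.x i) := by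
    rw [map_mul, map_mul, conj_central (P.hz' k j), P.r_other k j j hjk.symm hjk,
      P.r_other k j i hjk.symm hik]
  rw [h1, conj_mul_central hc, commutatorElement_def, map_mul, map_mul, map_mul, MulAut.mul_apply,
    MulAut.mul_apply, MulAut.mul_apply, e1, e2, e3, e4, e5] at h2
  exact (mul_right_cancel h2).symm

theorem z'_eq {i j k : Fin n} (hij : i ≠ j) (hik : i ≠ k) (hjk : j ≠ k) :
    P.z' i j = P.z k j := by
  obtain ⟨c, hc, h1⟩ := P.r_comm i j k hij hik hjk
  have h2 := P.r_self i j hij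
  have e1 := P.rinv_self hik
  have e2 : MulAut.conj (P.l k j)⁻¹ ((P.z' i k)⁻¹ * (P.x i * (P.x k)⁻¹)) =
      (P.z' i k)⁻¹ * (P.x i * ((P.z k j)⁻¹ * ((P.x j)⁻¹ * P.x k))⁻¹) := by
    generalize hg : MulAut.conj (P.l k j)⁻¹ = g
    have f1 : g (P.z' i k) = P.z' i k := by rw [← hg]; exact conj_central (P.hz' i k) _
    have f2 : g (P.x k) = (P.z k j)⁻¹ * ((P.x j)⁻¹ * P.x k) := by
      rw [← hg]; exact P.linv_self hjk.symm
    have f3 : g (P.x i) = P.x i := by rw [← hg]; exact P.linv_other hjk.symm hik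
    rw [map_mul, map_mul, map_inv, map_inv, f1, f2, f3]
  have e3 : (P.z' i k)⁻¹ * (P.x i * ((P.z k j)⁻¹ * ((P.x j)⁻¹ * P.x k))⁻¹) =
      (P.z' i k)⁻¹ * (P.z k j * (P.x i * ((P.x k)⁻¹ * P.x j))) := by
    rw [mul_inv_rev, mul_inv_rev, inv_inv, inv_inv, Subgroup.mem_center_iff.1 (P.hz k j),
      central_left (P.hz k j)]
  have e4 : MulAut.conj (P.r i k) ((P.z' i k)⁻¹ * (P.z k j * (P.x i * ((P.x k)⁻¹ * P.x j)))) =
      P.z k j * (P.x i * P.x j) := by
    have f0 : MulAut.conj (P.r i k) (P.z' i k)⁻¹ = (P.z' i k)⁻¹ :=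
      conj_central (Subgroup.inv_mem _ (P.hz' i k)) _
    have f1 : MulAut.conj (P.r i k) (P.z k j) = P.z k j := conj_central (P.hz k j) _
    have f2 : MulAut.conj (P.r i k) (P.x k)⁻¹ = (P.x k)⁻¹ := by
      rw [map_inv (MulAut.conj (P.r i k)), P.r_other i k k hik hik.symm]
    rw [map_mul, map_mul, map_mul, map_mul, f0, f1, f2, P.r_other i k j hik hij.symm,
      P.r_self i k hik, mul_assoc (P.z' i k), mul_assoc (P.x i), mul_inv_cancel_left,
      central_left (P.hz' i k), inv_mul_cancel_left]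
  have e5 : MulAut.conj (P.l k j) (P.z k j * (P.x i * P.x j)) =
      P.z k j * (P.x i * P.x j) := by
    rw [map_mul, map_mul, conj_central (P.hz k j), P.l_other k j j hjk.symm hjk,
      P.l_other k j i hjk.symm hik]
  rw [h1, conj_mul_central hc, commutatorElement_def, map_mul, map_mul, map_mul, MulAut.mul_apply,
    MulAut.mul_apply, MulAut.mul_apply, e1, e2, e3, e4, e5] at h2
  exact (mul_right_cancel h2).symm

/-- all the central elements `z i j` and `z' i j` only depend on `j` -/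
theorem exists_z (hn : 4 ≤ n) (j : Fin n) : ∃ c ∈ Subgroup.center G,
    ∀ i, i ≠ j → P.z i j = c ∧ P.z' i j = c := by
  obtain ⟨a, ha, -, -⟩ := Dat.exists_out3 (n := n) hn j j j
  refine ⟨P.z a j, P.hz a j, ?_⟩
  have key : ∀ i, i ≠ j → i ≠ a → P.z i j = P.z a j ∧ P.z' i j = P.z a j := by
    intro i hij hia
    obtain ⟨k, hkj, hki, hka⟩ := Dat.exists_out3 (n := n) hn j i a
    exact ⟨(P.z_eq hij hki.symm hkj.symm).trans (P.z_eq ha hka.symm hkj.symm).symm,
      P.z'_eq hij hia ha.symm⟩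
  intro i hij
  by_cases hia : i = a
  · subst hia
    obtain ⟨b, hbj, hbi, -⟩ := Dat.exists_out3 (n := n) hn j i i
    exact ⟨rfl, (P.z'_eq hij hbi.symm hbj.symm).trans (key b hbj hbi).1⟩
  · exact key i hij hia

theorem exists_niel (hn : 4 ≤ n) : ∃ N : Niel n G, N.l = P.l ∧ N.r = P.r ∧
    ∀ i, ∃ c ∈ Subgroup.center G, N.X i = c * P.x i := by
  choose c hc hcz using fun j => P.exists_z hn j
  refine ⟨⟨fun i => c i * P.x i, P.l, P.r, ?_, ?_, ?_, ?_⟩, rfl, rfl, fun i => ⟨c i, hc i, rfl⟩⟩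
  · intro i j hij
    change MulAut.conj (P.l i j) (c i * P.x i) = _
    rw [map_mul, conj_central (hc i), P.l_self i j hij, (hcz j i hij).1]
    rw [mul_assoc (c j), central_left (hc i) (P.x j), central_left (hc i) (c j)]
  · intro i j k hij hk
    change MulAut.conj (P.l i j) (c k * P.x k) = _
    rw [map_mul, conj_central (hc k), P.l_other i j k hij hk]
  · intro i j hij
    change MulAut.conj (P.r i j) (c i * P.x i) = _
    rw [map_mul, conj_central (hc i), P.r_self i j hij, (hcz j i hij).2]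
    rw [mul_assoc (c i), central_left (hc j) (P.x i)]
  · intro i j k hij hk
    change MulAut.conj (P.r i j) (c k * P.x k) = _
    rw [map_mul, conj_central (hc k), P.r_other i j k hij hk]

end PN

end group

section PRep

variable {A : Type*} [Group A] {L : Type*} [Field L] {m : ℕ} (R : PRep A L m)

/-- scalar matrices -/
def sc (c : L) (hc : c ≠ 0) : GL (Fin m) L where
  val := c • 1
  inv := c⁻¹ • 1
  val_inv := by rw [smul_mul_smul_comm, one_mul, mul_inv_cancel₀ hc, one_smul]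
  inv_val := by rw [smul_mul_smul_comm, one_mul, inv_mul_cancel₀ hc, one_smul]

theorem sc_val (c : L) (hc : c ≠ 0) :
    ((sc (m := m) c hc : GL (Fin m) L) : Matrix (Fin m) (Fin m) L) = c • 1 := rfl

theorem sc_central (c : L) (hc : c ≠ 0) : (sc (m := m) c hc) ∈ Subgroup.center (GL (Fin m) L) := by
  rw [Subgroup.mem_center_iff]
  intro g
  apply Units.ext
  rw [Units.val_mul, Units.val_mul, sc_val, mul_smul_comm, smul_mul_assoc, mul_one, one_mul]

theorem P_mul (g h : A) : ∃ c ∈ Subgroup.center (GL (Fin m) L), R.P g * R.P h = c * R.P (g * h) := by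
  obtain ⟨c, hc, h1⟩ := R.mul g h
  refine ⟨sc c hc, sc_central c hc, Units.ext ?_⟩
  rw [Units.val_mul, Units.val_mul, h1, sc_val, smul_mul_assoc, one_mul]

/-- the lifts as a homomorphism to the quotient by the centre -/
noncomputable def piHom : A →* GL (Fin m) L ⧸ Subgroup.center (GL (Fin m) L) :=
  MonoidHom.mk' (fun g => (QuotientGroup.mk (R.P g) : GL (Fin m) L ⧸ Subgroup.center _)) (by
    intro g h
    obtain ⟨c, hc, h1⟩ := P_mul R g h
    rw [← QuotientGroup.mk_mul, h1]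
    rw [QuotientGroup.eq]
    rw [← mul_assoc, Subgroup.mem_center_iff.1 hc, inv_mul_cancel_right]
    exact hc)

theorem piHom_apply (g : A) : piHom R g = QuotientGroup.mk (R.P g) := rfl

/-- an identity in the quotient by the centre -/
theorem lift_eq {u v : GL (Fin m) L}
    (h : (QuotientGroup.mk u : GL (Fin m) L ⧸ Subgroup.center _) = QuotientGroup.mk v) :
    ∃ c ∈ Subgroup.center (GL (Fin m) L), u = c * v := by
  rw [eq_comm, QuotientGroup.eq] at h
  refine ⟨v⁻¹ * u, h, ?_⟩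
  rw [← Subgroup.mem_center_iff.1 h v, mul_inv_cancel_left]

variable {n : ℕ} (D : Dat n A)

theorem exists_PN (hn : 4 ≤ n) : ∃ P : PN n (GL (Fin m) L), P.l = (fun i j => R.P (D.l i j)) ∧
    P.r = (fun i j => R.P (D.r i j)) ∧ P.x = fun i => R.P (D.s i) := by
  classical
  have hl : ∀ i j, ∃ c ∈ Subgroup.center (GL (Fin m) L), i ≠ j →
      MulAut.conj (R.P (D.l i j)) (R.P (D.s i)) = c * (R.P (D.s j) * R.P (D.s i)) := by
    intro i j
    by_cases hij : i = j
    · exact ⟨1, Subgroup.one_mem _, fun h => absurd hij h⟩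
    · obtain ⟨c, hc, h⟩ := lift_eq (u := MulAut.conj (R.P (D.l i j)) (R.P (D.s i)))
        (v := R.P (D.s j) * R.P (D.s i)) (by
          rw [MulAut.conj_apply, QuotientGroup.mk_mul, QuotientGroup.mk_mul, QuotientGroup.mk_mul,
            QuotientGroup.mk_inv, ← piHom_apply, ← piHom_apply, ← piHom_apply, ← map_inv,
            ← map_mul, ← map_mul, ← map_mul, ← D.l_self i j hij, MulAut.conj_apply])
      exact ⟨c, hc, fun _ => h⟩
  have hr : ∀ i j, ∃ c ∈ Subgroup.center (GL (Fin m) L), i ≠ j →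
      MulAut.conj (R.P (D.r i j)) (R.P (D.s i)) = c * (R.P (D.s i) * R.P (D.s j)) := by
    intro i j
    by_cases hij : i = j
    · exact ⟨1, Subgroup.one_mem _, fun h => absurd hij h⟩
    · obtain ⟨c, hc, h⟩ := lift_eq (u := MulAut.conj (R.P (D.r i j)) (R.P (D.s i)))
        (v := R.P (D.s i) * R.P (D.s j)) (by
          rw [MulAut.conj_apply, QuotientGroup.mk_mul, QuotientGroup.mk_mul, QuotientGroup.mk_mul,
            QuotientGroup.mk_inv, ← piHom_apply, ← piHom_apply, ← piHom_apply, ← map_inv,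
            ← map_mul, ← map_mul, ← map_mul, ← D.r_self i j hij, MulAut.conj_apply])
      exact ⟨c, hc, fun _ => h⟩
  choose z hz hz1 using hl
  choose z' hz' hz1' using hr
  refine ⟨⟨fun i => R.P (D.s i), fun i j => R.P (D.l i j), fun i j => R.P (D.r i j), z, z', hz, hz',
    hz1, ?_, hz1', ?_, ?_, ?_⟩, rfl, rfl, rfl⟩
  · intro i j k hij hk
    obtain ⟨t, h1, h2, h3⟩ := Dat.exists_out3 (n := n) hn i j k
    have h4 := D.ex_ls R hij hk h1 h2 h3
    rw [MulAut.conj_apply, mul_inv_eq_iff_eq_mul]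
    exact Units.ext h4
  · intro i j k hij hk
    obtain ⟨t, h1, h2, h3⟩ := Dat.exists_out3 (n := n) hn i j k
    have h4 := D.ex_rs R hij hk h1 h2 h3
    rw [MulAut.conj_apply, mul_inv_eq_iff_eq_mul]
    exact Units.ext h4
  · intro i j k hij hik hjk
    apply lift_eq
    rw [commutatorElement_def, QuotientGroup.mk_mul, QuotientGroup.mk_mul, QuotientGroup.mk_mul,
      QuotientGroup.mk_inv, QuotientGroup.mk_inv, ← piHom_apply, ← piHom_apply, ← piHom_apply,
      ← map_inv, ← map_inv, ← map_mul, ← map_mul, ← map_mul, ← commutatorElement_def,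
      D.l_comm hij hik hjk]
  · intro i j k hij hik hjk
    apply lift_eq
    rw [commutatorElement_def, QuotientGroup.mk_mul, QuotientGroup.mk_mul, QuotientGroup.mk_mul,
      QuotientGroup.mk_inv, QuotientGroup.mk_inv, ← piHom_apply, ← piHom_apply, ← piHom_apply,
      ← map_inv, ← map_inv, ← map_mul, ← map_mul, ← map_mul, ← commutatorElement_def,
      D.r_comm hij hik hjk]

/-- normalised lifts -/
theorem exists_lift (hn : 4 ≤ n) : ∃ N : Niel n (GL (Fin m) L),
    N.l = (fun i j => R.P (D.l i j)) ∧ N.r = (fun i j => R.P (D.r i j)) ∧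
    ∀ i, ∃ c ∈ Subgroup.center (GL (Fin m) L), N.X i = c * R.P (D.s i) := by
  obtain ⟨P, h1, h2, h3⟩ := exists_PN R D hn
  obtain ⟨N, h4, h5, h6⟩ := P.exists_niel hn
  refine ⟨N, h4.trans h1, h5.trans h2, ?_⟩
  rw [h3] at h6
  exact h6

end PRep

end Pool.Agent.FSX
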