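import Pool.Agent.FSX.Lift

/-!
The powers of the augmentation ideal do not vanish for a projectively faithful representation of a
Nielsen datum.
-/

namespace Pool.Agent.FSX

open Pool.Agent.FSC
open scoped commutatorElement

variable {A : Type*} [Group A] {L : Type*} [Field L] {m : ℕ} (R : PRep A L m)

theorem piHom_injective : Function.Injective (piHom R) := by
  rw [injective_iff_map_eq_one]
  intro g hg
  rw [piHom_apply, QuotientGroup.eq_one_iff,
    Matrix.GeneralLinearGroup.mem_center_iff_val_mem_range_scalar] at hg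
  obtain ⟨c, hc⟩ := hg
  refine R.inj g ⟨c, ?_⟩
  rw [← hc]
  ext i j
  by_cases hij : i = j
  · subst hij; simp
  · simp [hij]

variable {n : ℕ} (D : Dat n A) (N : Niel n (GL (Fin m) L))
  (hN : ∀ i, ∃ c ∈ Subgroup.center (GL (Fin m) L), N.X i = c * R.P (D.s i))

/-- `c` has a lift which acts trivially modulo `t` further steps of the filtration -/
def Dep (t : ℕ) (c : A) : Prop :=
  ∃ C : GL (Fin m) L, (QuotientGroup.mk C : GL (Fin m) L ⧸ Subgroup.center _) = piHom R c ∧
    ∀ i, ∀ y ∈ N.J L i, ((C : Matrix (Fin m) (Fin m) L) - 1) * y ∈ N.J L (i + t)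

include hN in
theorem Dep_s (k : Fin n) : Dep R N 1 (D.s k) := by
  refine ⟨N.X k, ?_, fun i y hy => N.sub_mul_mem L hy k⟩
  obtain ⟨c, hc, h1⟩ := hN k
  rw [h1, QuotientGroup.mk_mul, (QuotientGroup.eq_one_iff c).2 hc, one_mul, piHom_apply]

include hN in
theorem Dep_comm {t : ℕ} {c : A} (h : Dep R N t c) (k : Fin n) :
    Dep R N (t + 1) ⁅D.s k, c⁆ := by
  obtain ⟨C, hC1, hC2⟩ := h
  have hCS : ∀ i, C ∈ N.Sta L i := by
    intro i y hy
    have h1 : (C : Matrix (Fin m) (Fin m) L) * y = ((C : Matrix (Fin m) (Fin m) L) - 1) * y + y := by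
      noncomm_ring
    rw [h1]
    exact Submodule.add_mem _ (N.J_antitone L (Nat.le_add_right i t) (hC2 i y hy)) hy
  obtain ⟨z, hz, h1⟩ := hN k
  refine ⟨⁅N.X k, C⁆, ?_, ?_⟩
  · rw [commutatorElement_def, commutatorElement_def, QuotientGroup.mk_mul, QuotientGroup.mk_mul,
      QuotientGroup.mk_mul, QuotientGroup.mk_inv, QuotientGroup.mk_inv, hC1, h1,
      QuotientGroup.mk_mul, (QuotientGroup.eq_one_iff z).2 hz, one_mul, ← piHom_apply, map_mul,
      map_mul, map_mul, map_inv, map_inv]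
  · intro i y hy
    obtain ⟨w, hw, rfl⟩ : ∃ w ∈ N.J L i,
        (C : Matrix (Fin m) (Fin m) L) * ((N.X k : Matrix (Fin m) (Fin m) L) * w) = y := by
      refine ⟨_, (N.Sta L i).inv_mem (N.X_mem L i k) _ ((N.Sta L i).inv_mem (hCS i) y hy), ?_⟩
      rw [Units.mul_inv_cancel_left, Units.mul_inv_cancel_left]
    have h2 : (⁅N.X k, C⁆ : GL (Fin m) L) * (C * N.X k) = N.X k * C := by
      rw [commutatorElement_def]; group
    have h3 := congrArg Units.val h2
    simp only [Units.val_mul] at h3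
    have h4 : (((⁅N.X k, C⁆ : GL (Fin m) L) : Matrix (Fin m) (Fin m) L) - 1) *
        ((C : Matrix (Fin m) (Fin m) L) * ((N.X k : Matrix (Fin m) (Fin m) L) * w)) =
        ((N.X k : Matrix (Fin m) (Fin m) L) - 1) * (((C : Matrix (Fin m) (Fin m) L) - 1) * w) -
        ((C : Matrix (Fin m) (Fin m) L) - 1) * (((N.X k : Matrix (Fin m) (Fin m) L) - 1) * w) := by
      have h5 : (((⁅N.X k, C⁆ : GL (Fin m) L) : Matrix (Fin m) (Fin m) L) - 1) *
        ((C : Matrix (Fin m) (Fin m) L) * ((N.X k : Matrix (Fin m) (Fin m) L) * w)) =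
        (((⁅N.X k, C⁆ : GL (Fin m) L) : Matrix (Fin m) (Fin m) L) *
          ((C : Matrix (Fin m) (Fin m) L) * (N.X k : Matrix (Fin m) (Fin m) L))) * w -
          (C : Matrix (Fin m) (Fin m) L) * ((N.X k : Matrix (Fin m) (Fin m) L) * w) := by
        noncomm_ring
      rw [h5, h3]; noncomm_ring
    rw [h4]
    refine Submodule.sub_mem _ ?_ ?_
    · rw [← add_assoc]
      exact N.sub_mul_mem L (hC2 i w hw) k
    · have h6 := hC2 (i + 1) _ (N.sub_mul_mem L hw k)
      rwa [add_assoc, add_comm 1 t] at h6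

theorem eq_one_of_Dep {j t : ℕ} (hj : N.J L j = ⊥) (htj : j ≤ t) {c : A} (h : Dep R N t c) :
    c = 1 := by
  obtain ⟨C, hC1, hC2⟩ := h
  have h1 := N.J_antitone L htj (by
    have := hC2 0 1 (by rw [Niel.J]; trivial)
    rwa [zero_add, mul_one] at this)
  rw [hj, Submodule.mem_bot, sub_eq_zero] at h1
  have h2 : C = 1 := Units.ext h1
  apply piHom_injective R
  rw [← hC1, h2, map_one]
  rfl

include hN in
theorem eq_one_of_Dep' {j : ℕ} (hj : N.J L j = ⊥) (d : ℕ) : ∀ t, j ≤ t + d → ∀ c : A,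
    Dep R N t c → c = 1 := by
  induction d with
  | zero => exact fun t ht c hc => eq_one_of_Dep R N hj ht hc
  | succ d ih =>
    intro t ht c hc
    refine D.eq_one_of_comm fun k => ?_
    have h1 := ih (t + 1) (by omega) _ (Dep_comm R D N hN hc k)
    rw [commutatorElement_eq_one_iff_commute] at h1
    exact h1.symm

include hN in
theorem J_ne_bot (hn : 0 < n) (j : ℕ) : N.J L j ≠ ⊥ := by
  intro hj
  exact D.s_ne ⟨0, hn⟩ (eq_one_of_Dep' R D N hN hj j 1 (by omega) _ (Dep_s R D N hN _))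

end Pool.Agent.FSX
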