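import Pool.Agent.FSX.Filt

/-!
The two kinds of steps: `X - X⁻¹` for one basis element, and
`X + w² Y + w (X Y)⁻¹` for two basis elements.
-/

namespace Pool.Agent.FSX

section core

variable {L E : Type*} [Field L] [Ring E] [Algebra L E]

/-- A set of pairs of units closed under some automorphisms of the free group of rank two, and a
subspace stable under right multiplications which contains all `a + w² b + w b⁻¹ a⁻¹`. Then it
contains all `1 - b⁻¹`. -/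
theorem tri_core (O : Set (Eˣ × Eˣ)) (K : Submodule L E) (w : L) (hw3 : w ^ 3 = 1) (hw : w ≠ 1)
    (h1 : ∀ a b, (a, b) ∈ O → (a * b, b) ∈ O) (h2 : ∀ a b, (a, b) ∈ O → (b, a⁻¹) ∈ O)
    (h3 : ∀ a b, (a, b) ∈ O → (a, a * b * a⁻¹) ∈ O)
    (hK : ∀ a b, (a, b) ∈ O → ∀ s ∈ K, s * (a : E) ∈ K)
    (hW : ∀ a b, (a, b) ∈ O →
      (a : E) + w ^ 2 • (b : E) + w • (((b⁻¹ * a⁻¹ : Eˣ)) : E) ∈ K) :
    ∀ a b, (a, b) ∈ O → (1 : E) - ((b⁻¹ : Eˣ) : E) ∈ K := by
  have hw0 : w ≠ 0 := by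
    rintro rfl
    norm_num at hw3
  have h4 : ∀ a b, (a, b) ∈ O → (a⁻¹, b⁻¹) ∈ O := fun a b h => h2 _ _ (h2 _ _ h)
  have hKa' : ∀ a b, (a, b) ∈ O → ∀ s ∈ K, s * ((a⁻¹ : Eˣ) : E) ∈ K := fun a b h =>
    hK _ _ (h4 _ _ h)
  have hKb : ∀ a b, (a, b) ∈ O → ∀ s ∈ K, s * (b : E) ∈ K := fun a b h => hK _ _ (h2 _ _ h)
  have hKb' : ∀ a b, (a, b) ∈ O → ∀ s ∈ K, s * ((b⁻¹ : Eˣ) : E) ∈ K := fun a b h =>
    hKa' _ _ (h2 _ _ h)
  -- F : a β - w β a⁻¹
  have F : ∀ a b, (a, b) ∈ O → (a : E) * (1 - ((b⁻¹ : Eˣ) : E)) -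
      w • ((1 - ((b⁻¹ : Eˣ) : E)) * ((a⁻¹ : Eˣ) : E)) ∈ K := by
    intro a b h
    have e1 := K.smul_mem w (hW a b h)
    have e2 := hW b a⁻¹ (h2 a b h)
    have e3 := K.smul_mem w⁻¹ (K.sub_mem e1 e2)
    rw [inv_inv] at e3
    convert e3 using 1
    rw [Units.val_mul, Units.val_mul]
    simp only [smul_add, smul_sub, smul_smul, mul_sub, sub_mul, mul_one, one_mul]
    have c1 : w⁻¹ * w = 1 := inv_mul_cancel₀ hw0
    have c2 : w⁻¹ * (w * w ^ 2) = w⁻¹ := by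
      rw [← pow_succ', hw3, mul_one]
    have c3 : w⁻¹ * w ^ 2 = w := by
      rw [pow_two, ← mul_assoc, c1, one_mul]
    have c4 : w⁻¹ * (w * w) = w := by rw [← mul_assoc, c1, one_mul]
    rw [c1, c2, c3, c4]
    simp only [one_smul]
    abel
  -- G : β (a⁻¹ b - b⁻¹ a⁻¹)
  have G : ∀ a b, (a, b) ∈ O → (1 - ((b⁻¹ : Eˣ) : E)) *
      (((a⁻¹ : Eˣ) : E) * (b : E) - ((b⁻¹ : Eˣ) : E) * ((a⁻¹ : Eˣ) : E)) ∈ K := by
    intro a b h
    have e1 := hKb a b h _ (F a b h)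
    have e2 := F (a * b) b (h1 a b h)
    have e3 := K.smul_mem w⁻¹ (K.sub_mem e2 e1)
    convert e3 using 1
    rw [mul_inv_rev, Units.val_mul, Units.val_mul]
    have hbb : ((b⁻¹ : Eˣ) : E) * (b : E) = 1 := Units.inv_mul b
    have hbb' : (b : E) * ((b⁻¹ : Eˣ) : E) = 1 := Units.mul_inv b
    have c : (a : E) * (b : E) * (1 - ((b⁻¹ : Eˣ) : E)) -
        w • ((1 - ((b⁻¹ : Eˣ) : E)) * (((b⁻¹ : Eˣ) : E) * ((a⁻¹ : Eˣ) : E))) -
        ((a : E) * (1 - ((b⁻¹ : Eˣ) : E)) -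
          w • ((1 - ((b⁻¹ : Eˣ) : E)) * ((a⁻¹ : Eˣ) : E))) * (b : E) =
        w • ((1 - ((b⁻¹ : Eˣ) : E)) *
      (((a⁻¹ : Eˣ) : E) * (b : E) - ((b⁻¹ : Eˣ) : E) * ((a⁻¹ : Eˣ) : E))) := by
      simp only [sub_mul, mul_sub, one_mul, mul_one, mul_assoc, hbb, hbb', smul_sub,
        smul_mul_assoc]
      abel
    rw [c, smul_smul, inv_mul_cancel₀ hw0, one_smul]
  -- G1 : β (a⁻¹ b a - b⁻¹)
  have G1 : ∀ a b, (a, b) ∈ O → (1 - ((b⁻¹ : Eˣ) : E)) *
      (((a⁻¹ : Eˣ) : E) * (b : E) * (a : E) - ((b⁻¹ : Eˣ) : E)) ∈ K := by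
    intro a b h
    convert hK a b h _ (G a b h) using 1
    have haa : ((a⁻¹ : Eˣ) : E) * (a : E) = 1 := Units.inv_mul a
    simp only [sub_mul, mul_sub, one_mul, mul_one, mul_assoc, haa]
  -- G2 : β (a⁻¹ b b a - b⁻¹ b⁻¹)
  have G2 : ∀ a b, (a, b) ∈ O → (1 - ((b⁻¹ : Eˣ) : E)) *
      (((a⁻¹ : Eˣ) : E) * (b : E) * (b : E) * (a : E) - ((b⁻¹ : Eˣ) : E) * ((b⁻¹ : Eˣ) : E)) ∈
      K := by
    intro a b h
    have e1 := hK a b h _ (hKb a b h _ (hKa' a b h _ (G1 a b h)))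
    have e2 := hKb' a b h _ (G1 (a * b) b (h1 a b h))
    convert K.add_mem e1 e2 using 1
    rw [mul_inv_rev, Units.val_mul, Units.val_mul]
    have haa' : (a : E) * ((a⁻¹ : Eˣ) : E) = 1 := Units.mul_inv a
    have hbb' : (b : E) * ((b⁻¹ : Eˣ) : E) = 1 := Units.mul_inv b
    have k1 : ∀ z : E, (a : E) * (((a⁻¹ : Eˣ) : E) * z) = z := fun z => by
      rw [← mul_assoc, haa', one_mul]
    simp only [sub_mul, mul_sub, one_mul, mul_one, mul_assoc, hbb', k1]
    abel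
  -- F' : a⁻¹ β - w β b b a
  have F' : ∀ a b, (a, b) ∈ O → ((a⁻¹ : Eˣ) : E) * (1 - ((b⁻¹ : Eˣ) : E)) -
      w • ((1 - ((b⁻¹ : Eˣ) : E)) * ((b : E) * (b : E) * (a : E))) ∈ K := by
    intro a b h
    have e1 := hKb' a b h _ (F a⁻¹ b⁻¹ (h4 a b h))
    have e2 := G a⁻¹ b⁻¹ (h4 a b h)
    rw [inv_inv, inv_inv] at e1 e2
    convert K.neg_mem (K.add_mem e1 (K.smul_mem w e2)) using 1
    have hbb : ((b⁻¹ : Eˣ) : E) * (b : E) = 1 := Units.inv_mul b
    have hbb' : (b : E) * ((b⁻¹ : Eˣ) : E) = 1 := Units.mul_inv b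
    have k1 : ∀ z : E, ((b⁻¹ : Eˣ) : E) * ((b : E) * z) = z := fun z => by
      rw [← mul_assoc, hbb, one_mul]
    simp only [sub_mul, mul_sub, one_mul, mul_one, mul_assoc, hbb', smul_sub,
        smul_mul_assoc, k1]
    abel
  -- H1 : β - w² β b⁻¹ b⁻¹
  have H1 : ∀ a b, (a, b) ∈ O → (1 - ((b⁻¹ : Eˣ) : E)) -
      w ^ 2 • ((1 - ((b⁻¹ : Eˣ) : E)) * (((b⁻¹ : Eˣ) : E) * ((b⁻¹ : Eˣ) : E))) ∈ K := by
    intro a b h
    have e1 := F' a (a * b * a⁻¹) (h3 a b h)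
    have e2 := K.smul_mem w (hKb a b h _ (hKb a b h _ (F a b h)))
    have e3 := hK a b h _ (K.add_mem e1 e2)
    have e4 := K.smul_mem (w ^ 2) (G2 a b h)
    convert K.add_mem e3 e4 using 1
    simp only [mul_inv_rev, inv_inv, Units.val_mul]
    have haa : ((a⁻¹ : Eˣ) : E) * (a : E) = 1 := Units.inv_mul a
    have k1 : ∀ z : E, ((a⁻¹ : Eˣ) : E) * ((a : E) * z) = z := fun z => by
      rw [← mul_assoc, haa, one_mul]
    have k2 : w * w = w ^ 2 := (pow_two w).symm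
    simp only [sub_mul, mul_sub, one_mul, mul_one, mul_assoc, smul_sub,
        smul_mul_assoc, add_mul, k1, haa, smul_smul, k2]
    abel
  intro a b h
  have e1 := hKb a b h _ (hKb a b h _ (H1 a b h))
  have e2 := hKb' a b h _ (H1 a⁻¹ b⁻¹ (h4 a b h))
  rw [inv_inv] at e2
  -- β b b - w² β, and β - w² β b b up to sign
  have hbb : ((b⁻¹ : Eˣ) : E) * (b : E) = 1 := Units.inv_mul b
  have hbb' : (b : E) * ((b⁻¹ : Eˣ) : E) = 1 := Units.mul_inv b
  have k1 : ∀ z : E, ((b⁻¹ : Eˣ) : E) * ((b : E) * z) = z := fun z => by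
    rw [← mul_assoc, hbb, one_mul]
  have e3 := K.sub_mem (K.smul_mem (w ^ 2) e1) e2
  have e4 : (1 - w) • ((1 : E) - ((b⁻¹ : Eˣ) : E)) ∈ K := by
    convert e3 using 1
    have c1 : w ^ 2 * w ^ 2 = w := by
      rw [← pow_add]
      calc w ^ 4 = w ^ 3 * w := by ring
        _ = w := by rw [hw3, one_mul]
    simp only [sub_mul, mul_sub, one_mul, mul_one, mul_assoc, hbb', hbb, smul_sub,
        smul_mul_assoc, k1, smul_smul, c1, sub_smul, one_smul]
    abel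
  have e5 := K.smul_mem (1 - w)⁻¹ e4
  rwa [smul_smul, inv_mul_cancel₀ (sub_ne_zero.2 (Ne.symm hw)), one_smul] at e5

end core

namespace Niel

section group

variable {n : ℕ} {G : Type*} [Group G] (N : Niel n G)

theorem linv_self {i j : Fin n} (h : i ≠ j) :
    (N.l i j)⁻¹ * N.X i * N.l i j = (N.X j)⁻¹ * N.X i := by
  have h1 := N.l_mul_self h
  have h2 := N.l_mul_other h h.symm
  have h3 : N.X i * N.l i j = N.l i j * ((N.X j)⁻¹ * N.X i) := by
    have h4 : N.l i j * (N.X j)⁻¹ = (N.X j)⁻¹ * N.l i j := by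
      rw [eq_inv_mul_iff_mul_eq, ← mul_assoc, ← h2, mul_inv_cancel_right]
    rw [← mul_assoc, h4, mul_assoc, h1]
    group
  rw [mul_assoc, h3, inv_mul_cancel_left]

theorem linv_other {i j k : Fin n} (h : i ≠ j) (hk : k ≠ i) :
    (N.l i j)⁻¹ * N.X k * N.l i j = N.X k := by
  rw [mul_assoc, ← N.l_mul_other h hk, inv_mul_cancel_left]

theorem rinv_self {i j : Fin n} (h : i ≠ j) :
    (N.r i j)⁻¹ * N.X i * N.r i j = N.X i * (N.X j)⁻¹ := by
  have h1 := N.r_mul_self h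
  have h2 := N.r_mul_other h h.symm
  have h3 : N.X i * N.r i j = N.r i j * (N.X i * (N.X j)⁻¹) := by
    have h4 : N.r i j * (N.X j)⁻¹ = (N.X j)⁻¹ * N.r i j := by
      rw [eq_inv_mul_iff_mul_eq, ← mul_assoc, ← h2, mul_inv_cancel_right]
    rw [← mul_assoc, h1, mul_assoc, mul_assoc, h4, ← mul_assoc (N.X j), mul_inv_cancel, one_mul]
  rw [mul_assoc, h3, inv_mul_cancel_left]

theorem rinv_other {i j k : Fin n} (h : i ≠ j) (hk : k ≠ i) :
    (N.r i j)⁻¹ * N.X k * N.r i j = N.X k := by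
  rw [mul_assoc, ← N.r_mul_other h hk, inv_mul_cancel_left]

/-- the element acting as `x_i ↦ x_j`, `x_j ↦ x_i⁻¹` -/
def tau (i j : Fin n) : G := N.l i j * (N.l j i)⁻¹ * N.r i j

theorem tau_left {i j : Fin n} (h : i ≠ j) : MulAut.conj (N.tau i j) (N.X i) = N.X j := by
  have e1 : MulAut.conj (N.r i j) (N.X i) = N.X i * N.X j := N.r_self i j h
  have e2 : MulAut.conj (N.l j i)⁻¹ (N.X i) = N.X i := by
    rw [MulAut.conj_apply, inv_inv]; exact N.linv_other h.symm h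
  have e3 : MulAut.conj (N.l j i)⁻¹ (N.X j) = (N.X i)⁻¹ * N.X j := by
    rw [MulAut.conj_apply, inv_inv]; exact N.linv_self h.symm
  have e4 : MulAut.conj (N.l i j) (N.X j) = N.X j := N.l_other i j j h h.symm
  rw [tau, map_mul, map_mul, MulAut.mul_apply, MulAut.mul_apply, e1, map_mul, e2, e3,
    mul_inv_cancel_left, e4]

theorem tau_right {i j : Fin n} (h : i ≠ j) : MulAut.conj (N.tau i j) (N.X j) = (N.X i)⁻¹ := by
  have e1 : MulAut.conj (N.r i j) (N.X j) = N.X j := N.r_other i j j h h.symm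
  have e3 : MulAut.conj (N.l j i)⁻¹ (N.X j) = (N.X i)⁻¹ * N.X j := by
    rw [MulAut.conj_apply, inv_inv]; exact N.linv_self h.symm
  have e4 : MulAut.conj (N.l i j) (N.X j) = N.X j := N.l_other i j j h h.symm
  have e5 : MulAut.conj (N.l i j) (N.X i) = N.X j * N.X i := N.l_self i j h
  rw [tau, map_mul, map_mul, MulAut.mul_apply, MulAut.mul_apply, e1, e3, map_mul, map_inv, e4, e5]
  group

theorem tau_other {i j k : Fin n} (h : i ≠ j) (hki : k ≠ i) (hkj : k ≠ j) :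
    MulAut.conj (N.tau i j) (N.X k) = N.X k := by
  have e1 : MulAut.conj (N.r i j) (N.X k) = N.X k := N.r_other i j k h hki
  have e2 : MulAut.conj (N.l j i)⁻¹ (N.X k) = N.X k := by
    rw [MulAut.conj_apply, inv_inv]; exact N.linv_other h.symm hkj
  have e3 : MulAut.conj (N.l i j) (N.X k) = N.X k := N.l_other i j k h hki
  rw [tau, map_mul, map_mul, MulAut.mul_apply, MulAut.mul_apply, e1, e2, e3]

/-- the element acting as `x_i ↦ x_j`, `x_j ↦ x_j⁻¹ x_i⁻¹` -/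
def theta (i j : Fin n) : G := N.tau i j * (N.l j i)⁻¹

theorem theta_left {i j : Fin n} (h : i ≠ j) : MulAut.conj (N.theta i j) (N.X i) = N.X j := by
  have e2 : MulAut.conj (N.l j i)⁻¹ (N.X i) = N.X i := by
    rw [MulAut.conj_apply, inv_inv]; exact N.linv_other h.symm h
  rw [theta, map_mul, MulAut.mul_apply, e2, N.tau_left h]

theorem theta_right {i j : Fin n} (h : i ≠ j) :
    MulAut.conj (N.theta i j) (N.X j) = (N.X j)⁻¹ * (N.X i)⁻¹ := by
  have e3 : MulAut.conj (N.l j i)⁻¹ (N.X j) = (N.X i)⁻¹ * N.X j := by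
    rw [MulAut.conj_apply, inv_inv]; exact N.linv_self h.symm
  rw [theta, map_mul, MulAut.mul_apply, e3, map_mul, map_inv, N.tau_left h, N.tau_right h]

theorem theta_other {i j k : Fin n} (h : i ≠ j) (hki : k ≠ i) (hkj : k ≠ j) :
    MulAut.conj (N.theta i j) (N.X k) = N.X k := by
  have e2 : MulAut.conj (N.l j i)⁻¹ (N.X k) = N.X k := by
    rw [MulAut.conj_apply, inv_inv]; exact N.linv_other h.symm hkj
  rw [theta, map_mul, MulAut.mul_apply, e2, N.tau_other h hki hkj]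

end group

variable (L : Type*) {E : Type*} [Field L] [Ring E] [Algebra L E] [FiniteDimensional L E]
  {n : ℕ} (N : Niel n Eˣ)

theorem sign_step {j : ℕ} {P : E} {i : Fin n}
    (hP : ∀ k, i ≠ k → (N.l i k : E) * P = P * N.l i k) (hu : IsUnit ((N.X i : E) + 1))
    (h : ∀ y ∈ N.J L j, P * (((N.X i : E) - (((N.X i)⁻¹ : Eˣ) : E)) * y) = 0) :
    ∀ y ∈ N.J L (j + 1), P * y = 0 := by
  refine N.step_aux L hP fun y hy => ?_
  obtain ⟨v, hv⟩ := hu
  have hvS : v ∈ N.Sta L j := by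
    intro z hz
    rw [hv, add_mul, one_mul]
    exact Submodule.add_mem _ (N.X_mul_mem L i hz) hz
  have h1 := h _ ((N.Sta L j).inv_mem hvS _ (N.X_mul_mem L i hy))
  rw [← h1]
  congr 1
  have h2 : ((v⁻¹ : Eˣ) : E) * ((N.X i : E) * y) = (N.X i : E) * (((v⁻¹ : Eˣ) : E) * y) := by
    have h3 : (v : E) * (N.X i : E) = (N.X i : E) * v := by rw [hv]; noncomm_ring
    have h4 : Commute (v⁻¹ : Eˣ) (N.X i) := (Commute.inv_left (Units.ext h3))
    have h5 := congrArg Units.val h4.eq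
    rw [Units.val_mul, Units.val_mul] at h5
    rw [← mul_assoc, h5, mul_assoc]
  rw [h2]
  have h6 : y = (N.X i : E) * (((v⁻¹ : Eˣ) : E) * y) + ((v⁻¹ : Eˣ) : E) * y := by
    have h7 : (v : E) * (((v⁻¹ : Eˣ) : E) * y) = y := Units.mul_inv_cancel_left v y
    rw [hv, add_mul, one_mul] at h7
    exact h7.symm
  have h8 : (((N.X i)⁻¹ : Eˣ) : E) * ((N.X i : E) * (((v⁻¹ : Eˣ) : E) * y)) =
      ((v⁻¹ : Eˣ) : E) * y := Units.inv_mul_cancel_left _ _
  conv_lhs => rw [h6]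
  rw [sub_mul, sub_mul, h8, one_mul, mul_add]
  abel

/-- the factor for a pair of basis elements -/
def tri (w : L) (a b : Fin n) : E :=
  (N.X a : E) + w ^ 2 • (N.X b : E) + w • ((((N.X b)⁻¹ * (N.X a)⁻¹ : Eˣ)) : E)

theorem tri_step {j : ℕ} {P : E} {a b : Fin n} (hab : a ≠ b) {w : L} (hw3 : w ^ 3 = 1)
    (hw : w ≠ 1) (hPa : ∀ k, a ≠ k → (N.l a k : E) * P = P * N.l a k)
    (hPa' : ∀ k, a ≠ k → (N.r a k : E) * P = P * N.r a k)
    (hPb : ∀ k, b ≠ k → (N.l b k : E) * P = P * N.l b k)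
    (hPb' : ∀ k, b ≠ k → (N.r b k : E) * P = P * N.r b k)
    (h : ∀ y ∈ N.J L j, P * (N.tri L w a b * y) = 0) :
    ∀ y ∈ N.J L (j + 1), P * y = 0 := by
  -- the units which preserve `J j` and commute with `P`
  let S : Subgroup Eˣ := N.Sta L j ⊓
    { carrier := {g | (g : E) * P = P * g}
      mul_mem' := by
        intro x y hx hy
        have hx : (x : E) * P = P * x := hx
        have hy : (y : E) * P = P * y := hy
        change ((x * y : Eˣ) : E) * P = P * ((x * y : Eˣ) : E)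
        rw [Units.val_mul, mul_assoc, hy, ← mul_assoc, hx, mul_assoc]
      one_mem' := by change ((1 : Eˣ) : E) * P = P * ((1 : Eˣ) : E); simp
      inv_mem' := by
        intro x hx
        have hx : (x : E) * P = P * x := hx
        change ((x⁻¹ : Eˣ) : E) * P = P * ((x⁻¹ : Eˣ) : E)
        rw [Units.inv_mul_eq_iff_eq_mul, ← mul_assoc, hx, Units.mul_inv_cancel_right] }
  have hSJ : ∀ g ∈ S, ∀ y ∈ N.J L j, (g : E) * y ∈ N.J L j := fun g hg => hg.1
  have hSP : ∀ g ∈ S, (g : E) * P = P * g := fun g hg => hg.2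
  have hla : ∀ k, a ≠ k → N.l a k ∈ S := fun k hk => ⟨N.l_mem L j hk, hPa k hk⟩
  have hra : ∀ k, a ≠ k → N.r a k ∈ S := fun k hk => ⟨N.r_mem L j hk, hPa' k hk⟩
  have hlb : ∀ k, b ≠ k → N.l b k ∈ S := fun k hk => ⟨N.l_mem L j hk, hPb k hk⟩
  have hrb : ∀ k, b ≠ k → N.r b k ∈ S := fun k hk => ⟨N.r_mem L j hk, hPb' k hk⟩
  have htau : N.tau a b ∈ S :=
    S.mul_mem (S.mul_mem (hla b hab) (S.inv_mem (hlb a hab.symm))) (hra b hab)
  let O : Set (Eˣ × Eˣ) := {p | ∃ g ∈ S, p.1 = MulAut.conj g (N.X a) ∧ p.2 = MulAut.conj g (N.X b)}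
  let K : Submodule L E :=
    { carrier := {s | ∀ y ∈ N.J L j, P * (s * y) = 0}
      add_mem' := by
        intro x y hx hy z hz
        rw [add_mul, mul_add, hx z hz, hy z hz, add_zero]
      zero_mem' := by
        intro z _
        rw [zero_mul, mul_zero]
      smul_mem' := by
        intro c x hx z hz
        rw [smul_mul_assoc, mul_smul_comm, hx z hz, smul_zero] }
  have memK : ∀ s, s ∈ K ↔ ∀ y ∈ N.J L j, P * (s * y) = 0 := fun _ => Iff.rfl
  have key := tri_core O K w hw3 hw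
    (by
      rintro _ _ ⟨g, hg, rfl, rfl⟩
      refine ⟨g * N.r a b, S.mul_mem hg (hra b hab), ?_, ?_⟩
      · have : MulAut.conj (N.r a b) (N.X a) = N.X a * N.X b := N.r_self a b hab
        rw [map_mul, MulAut.mul_apply, this, map_mul]
      · have : MulAut.conj (N.r a b) (N.X b) = N.X b := N.r_other a b b hab hab.symm
        rw [map_mul, MulAut.mul_apply, this])
    (by
      rintro _ _ ⟨g, hg, rfl, rfl⟩
      refine ⟨g * N.tau a b, S.mul_mem hg htau, ?_, ?_⟩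
      · rw [map_mul, MulAut.mul_apply, N.tau_left hab]
      · rw [map_mul, MulAut.mul_apply, N.tau_right hab, map_inv])
    (by
      rintro _ _ ⟨g, hg, rfl, rfl⟩
      refine ⟨g * (N.l b a * (N.r b a)⁻¹), S.mul_mem hg (S.mul_mem (hlb a hab.symm)
        (S.inv_mem (hrb a hab.symm))), ?_, ?_⟩
      · have e1 : MulAut.conj (N.r b a)⁻¹ (N.X a) = N.X a := by
          rw [MulAut.conj_apply, inv_inv]; exact N.rinv_other hab.symm hab
        have e2 : MulAut.conj (N.l b a) (N.X a) = N.X a := N.l_other b a a hab.symm hab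
        rw [map_mul, map_mul, MulAut.mul_apply, MulAut.mul_apply, e1, e2]
      · have e1 : MulAut.conj (N.r b a)⁻¹ (N.X b) = N.X b * (N.X a)⁻¹ := by
          rw [MulAut.conj_apply, inv_inv]; exact N.rinv_self hab.symm
        have e2 : MulAut.conj (N.l b a) (N.X a) = N.X a := N.l_other b a a hab.symm hab
        have e3 : MulAut.conj (N.l b a) (N.X b) = N.X a * N.X b := N.l_self b a hab.symm
        rw [map_mul, map_mul, MulAut.mul_apply, MulAut.mul_apply, e1, map_mul, e3, map_inv, e2,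
          map_mul, map_mul, map_inv])
    (by
      rintro _ _ ⟨g, hg, rfl, rfl⟩ s hs
      rw [memK] at hs ⊢
      intro y hy
      rw [mul_assoc]
      refine hs _ ?_
      have hmem : MulAut.conj g (N.X a) ∈ N.Sta L j :=
        (N.Sta L j).mul_mem ((N.Sta L j).mul_mem hg.1 (N.X_mem L j a)) ((N.Sta L j).inv_mem hg.1)
      exact hmem y hy)
    (by
      rintro _ _ ⟨g, hg, rfl, rfl⟩
      rw [memK]
      intro y hy
      have h1 := h _ (hSJ _ (S.inv_mem hg) y hy)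
      have h2 := congrArg (fun e => (g : E) * e) h1
      simp only [mul_zero] at h2
      rw [← h2, ← mul_assoc (g : E), hSP g hg, mul_assoc P]
      congr 1
      rw [← mul_assoc, ← mul_assoc]
      congr 1
      rw [tri]
      simp only [mul_add, add_mul, mul_smul_comm, smul_mul_assoc]
      rw [← mul_inv_rev, ← map_mul, ← map_inv, MulAut.conj_apply, MulAut.conj_apply,
        MulAut.conj_apply, mul_inv_rev]
      simp only [Units.val_mul])
  have hfin := key (N.X a) (N.X b) ⟨1, S.one_mem, by simp, by simp⟩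
  rw [memK] at hfin
  refine N.step_aux L hPb fun y hy => ?_
  have h1 := hfin _ (N.X_mul_mem L b hy)
  rw [← h1]
  congr 1
  rw [sub_mul, sub_mul, one_mul, one_mul, Units.inv_mul_cancel_left]

end Niel

end Pool.Agent.FSX
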